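import Pool.Agent.Helper51.PL.JetS

set_option autoImplicit false

open MeasureTheory Set Filter Topology
open Pool.Agent.Helper82.PL

namespace Pool.Agent.Helper51.PL

/-- weight supported where hh vanishes -/
noncomputable def ww (z : ℝ) : ℝ := max 0 (-Real.sin z - 1 / 2)

lemma ww_cont : Continuous ww := by
  unfold ww
  fun_prop

lemma ww_nonneg (z : ℝ) : 0 ≤ ww z := le_max_left _ _

lemma ww_le (z : ℝ) : ww z ≤ 1 := by
  unfold ww
  refine max_le (by norm_num) ?_
  have := Real.neg_one_le_sin z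
  linarith

lemma ww_hh {z : ℝ} (h : 0 < ww z) : hh z = 0 := by
  unfold ww at h
  rw [lt_max_iff] at h
  rcases h with h | h
  · exact absurd h (lt_irrefl _)
  · unfold hh sg
    rw [max_eq_left (by linarith)]
    norm_num

lemma ww_per : Function.Periodic ww (2 * Real.pi) := by
  intro z
  unfold ww
  rw [Real.sin_add_two_pi]

lemma ww_int_pos : 0 < ∫ z in (0 : ℝ)..(2 * Real.pi), ww z := by
  refine intervalIntegral.integral_pos (by positivity) ww_cont.continuousOn
    (fun x _ => ww_nonneg x) ?_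
  refine ⟨3 * Real.pi / 2, ⟨by positivity, by linarith [Real.pi_pos]⟩, ?_⟩
  unfold ww
  have h1 : Real.sin (3 * Real.pi / 2) = -1 := by
    have h2 : 3 * Real.pi / 2 = Real.pi / 2 + Real.pi := by ring
    rw [h2, Real.sin_add_pi, Real.sin_pi_div_two]
  rw [h1]
  norm_num

theorem boundS_ok (_hP : stmtProf) (hR : stmtR) (hRd : stmtRd) : stmtBoundS := by
  obtain ⟨C, hC1, hC⟩ := hR
  have hC0 : 0 < C := by linarith
  set I : ℝ := ∫ z in (0 : ℝ)..(2 * Real.pi), ww z with hI
  have hI0 : 0 < I := ww_int_pos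
  refine ⟨C⁻¹ * Real.exp (-(16 * Real.pi)) * I, 150 * C, by positivity, by positivity, ?_⟩
  intro l hl hl1 x t hx0 hx
  obtain ⟨hd, hcR, hcR1, hcR2, _⟩ := hRd l hl hl1
  have hρ : (0 : ℝ) < 1 / 3 := by norm_num
  have z0 : |(0 : ℝ)| < 1 / 3 := by norm_num
  have hxa : |x| < 1 / 3 := by rw [abs_of_pos hx0]; exact hx
  have cp : ∀ n : ℕ, ContinuousOn (fun q : ℝ × ℝ => q.1 ^ n)
      {q | q.1 ≠ 0 ∧ |q.1| < 1 / 3} := fun n =>
    (by fun_prop : Continuous fun q : ℝ × ℝ => q.1 ^ n).continuousOn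
  have bd : ∀ (k : ℝ → ℝ → ℝ) (B : ℝ),
      (∀ x z : ℝ, x ≠ 0 → |x| < 1 / 3 → |k x z| ≤ B) →
      ∀ x z : ℝ, |x| < 1 / 3 → |x ^ 7 * k x z| ≤ B * x ^ 2 := by
    intro k B hk x z hx
    by_cases h0 : x = 0
    · subst h0
      simp
    · have h1 := hk x z h0 hx
      have h2 : |x| ^ 7 ≤ x ^ 2 := by
        have h1 : |x| ^ 5 ≤ 1 := pow_le_one₀ (abs_nonneg _) (by linarith)
        calc |x| ^ 7 = |x| ^ 5 * |x| ^ 2 := by ring
          _ ≤ 1 * |x| ^ 2 := mul_le_mul_of_nonneg_right h1 (by positivity)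
          _ = x ^ 2 := by rw [one_mul, sq_abs]
      rw [abs_mul, abs_pow, mul_comm]
      exact mul_le_mul h1 h2 (by positivity) ((abs_nonneg _).trans h1)
  have rR : ∀ x z : ℝ, x ≠ 0 → |x| < 1 / 3 → |Rr l x z| ≤ C := fun x z h0 hx => by
    obtain ⟨_, h2, h3, _⟩ := hC l hl hl1 x z h0 hx.le
    rw [abs_of_pos h2]
    exact h3
  have rR1 : ∀ x z : ℝ, x ≠ 0 → |x| < 1 / 3 → |R1 l x z| ≤ 28 * C := fun x z h0 hx => by
    obtain ⟨_, h2, h3, h4, h5, _⟩ := hC l hl hl1 x z h0 hx.le
    rw [abs_of_nonneg (by linarith)]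
    linarith
  have rR2 : ∀ x z : ℝ, x ≠ 0 → |x| < 1 / 3 → |R2 l x z| ≤ 1200 * C := fun x z h0 hx => by
    obtain ⟨_, h2, h3, h4, h5, h6, _⟩ := hC l hl hl1 x z h0 hx.le
    linarith
  have i0 : ∀ a b : ℝ, |a| < 1 / 3 → |b| < 1 / 3 →
      IntervalIntegrable (fun y => y ^ 7 * Rr l y (zz l y t)) volume a b := fun a b =>
    strip_int l (1 / 3) C hρ (fun x z => x ^ 7 * Rr l x z) ((cp 7).mul hcR)
      (bd (fun x z => Rr l x z) C rR) t a b
  have i1 : IntervalIntegrable (fun y => y ^ 7 * R1 l y (zz l y t)) volume 0 x :=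
    strip_int l (1 / 3) (28 * C) hρ (fun x z => x ^ 7 * R1 l x z) ((cp 7).mul hcR1)
      (bd (fun x z => R1 l x z) (28 * C) rR1) t 0 x z0 hxa
  have i2 : IntervalIntegrable (fun y => y ^ 7 * R2 l y (zz l y t)) volume 0 x :=
    strip_int l (1 / 3) (1200 * C) hρ (fun x z => x ^ 7 * R2 l x z) ((cp 7).mul hcR2)
      (bd (fun x z => R2 l x z) (1200 * C) rR2) t 0 x z0 hxa
  have p7 : (∫ y in (0 : ℝ)..x, y ^ 7) = x ^ 8 / 8 := by
    rw [integral_pow]
    norm_num
  have ip : ∀ B : ℝ, IntervalIntegrable (fun y : ℝ => B * y ^ 7) volume 0 x := fun B =>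
    (by fun_prop : Continuous fun y : ℝ => B * y ^ 7).intervalIntegrable _ _
  have pB : ∀ B : ℝ, (∫ y in (0 : ℝ)..x, B * y ^ 7) = B * (x ^ 8 / 8) := fun B => by
    rw [intervalIntegral.integral_const_mul, p7]
  have x8 : 0 < x ^ 8 := by positivity
  -- upper bounds
  have up0 : s0 l x t ≤ C * (x ^ 8 / 8) := by
    rw [← pB]
    unfold s0
    refine intervalIntegral.integral_mono_on hx0.le (i0 0 x z0 hxa) (ip C) fun y hy => ?_
    by_cases h0 : y = 0
    · subst h0
      simp
    · have h1 := (le_abs_self _).trans (rR y (zz l y t) h0 (by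
        rw [abs_of_nonneg hy.1]; linarith [hy.2]))
      rw [mul_comm C]
      exact mul_le_mul_of_nonneg_left h1 (pow_nonneg hy.1 7)
  have up1 : m1 l x t ≤ 28 * C * (x ^ 8 / 8) := by
    rw [← pB]
    unfold m1
    refine intervalIntegral.integral_mono_on hx0.le i1 (ip _) fun y hy => ?_
    by_cases h0 : y = 0
    · subst h0
      simp
    · have h1 := (le_abs_self _).trans (rR1 y (zz l y t) h0 (by
        rw [abs_of_nonneg hy.1]; linarith [hy.2]))
      rw [mul_comm (28 * C)]
      exact mul_le_mul_of_nonneg_left h1 (pow_nonneg hy.1 7)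
  have up2 : |m2 l x t| ≤ 1200 * C * (x ^ 8 / 8) := by
    rw [← pB]
    unfold m2
    refine (intervalIntegral.abs_integral_le_integral_abs hx0.le).trans ?_
    refine intervalIntegral.integral_mono_on hx0.le i2.abs (ip _) fun y hy => ?_
    by_cases h0 : y = 0
    · subst h0
      simp
    · have h1 := rR2 y (zz l y t) h0 (by rw [abs_of_nonneg hy.1]; linarith [hy.2])
      rw [abs_mul, abs_of_nonneg (pow_nonneg hy.1 7), mul_comm (1200 * C)]
      exact mul_le_mul_of_nonneg_left h1 (pow_nonneg hy.1 7)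
  -- lower bound
  have low1 : 7 * s0 l x t ≤ m1 l x t := by
    unfold m1 s0
    rw [← intervalIntegral.integral_const_mul]
    refine intervalIntegral.integral_mono_on hx0.le ((i0 0 x z0 hxa).const_mul 7) i1
      fun y hy => ?_
    by_cases h0 : y = 0
    · subst h0
      simp
    · obtain ⟨_, h2, h3, h4, h5, h6, _⟩ := hC l hl hl1 y (zz l y t) h0 (by
        rw [abs_of_nonneg hy.1]; linarith [hy.2])
      have h7 := mul_le_mul_of_nonneg_left h4 (pow_nonneg hy.1 7)
      linarith
  have low0 : C⁻¹ * Real.exp (-(16 * Real.pi)) * I * x ^ 8 ≤ s0 l x t := by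
    set a : ℝ := Real.exp (-(2 * Real.pi)) * x with ha
    have he1 : Real.exp (-(2 * Real.pi)) < 1 := by
      rw [Real.exp_lt_one_iff]
      have := Real.pi_pos
      linarith
    have ha0 : 0 < a := by positivity
    have hax : a < x := by
      calc a < 1 * x := mul_lt_mul_of_pos_right he1 hx0
        _ = x := one_mul x
    have haa : |a| < 1 / 3 := by rw [abs_of_pos ha0]; linarith
    have s1 : s0 l x t = (∫ y in (0 : ℝ)..a, y ^ 7 * Rr l y (zz l y t)) +
        ∫ y in a..x, y ^ 7 * Rr l y (zz l y t) :=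
      (intervalIntegral.integral_add_adjacent_intervals (i0 0 a z0 haa) (i0 a x haa hxa)).symm
    have s2 : 0 ≤ ∫ y in (0 : ℝ)..a, y ^ 7 * Rr l y (zz l y t) := by
      refine intervalIntegral.integral_nonneg ha0.le fun y hy => ?_
      by_cases h0 : y = 0
      · subst h0
        simp
      · obtain ⟨_, h2, _⟩ := hC l hl hl1 y (zz l y t) h0 (by
          rw [abs_of_nonneg hy.1]; linarith [hy.2])
        exact mul_nonneg (pow_nonneg hy.1 7) h2.le
    -- the primitive of ww
    have hW : ∀ z, HasDerivAt (fun z => ∫ u in (0 : ℝ)..z, ww u) (ww z) z := fun z =>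
      intervalIntegral.integral_hasDerivAt_right (ww_cont.intervalIntegrable _ _)
        (ww_cont.stronglyMeasurableAtFilter _ _) ww_cont.continuousAt
    have cont1 : ContinuousOn (fun y => ww (zz l y t) * y⁻¹) (uIcc a x) := by
      intro y hy
      rw [uIcc_of_le hax.le] at hy
      have hy0 : y ≠ 0 := by linarith [hy.1]
      refine ContinuousAt.continuousWithinAt ?_
      refine ContinuousAt.mul ?_ (continuousAt_inv₀ hy0)
      refine ww_cont.continuousAt.comp ?_
      unfold zz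
      exact (Real.continuousAt_log hy0).add_const _
    have s3 : (∫ y in a..x, ww (zz l y t) * y⁻¹) = I := by
      have h1 := intervalIntegral.integral_eq_sub_of_hasDerivAt
        (f := fun y => ∫ u in (0 : ℝ)..(zz l y t), ww u)
        (f' := fun y => ww (zz l y t) * y⁻¹) (a := a) (b := x) (fun y hy => by
          rw [uIcc_of_le hax.le] at hy
          have hy0 : y ≠ 0 := by linarith [hy.1]
          have h3 : HasDerivAt (fun y : ℝ => zz l y t) (y⁻¹) y := by
            unfold zz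
            exact (Real.hasDerivAt_log hy0).add_const _
          exact HasDerivAt.comp y (hW (zz l y t)) h3) cont1.intervalIntegrable
      rw [h1]
      have h2 : zz l a t = zz l x t - 2 * Real.pi := by
        unfold zz
        rw [ha, Real.log_mul (Real.exp_pos _).ne' hx0.ne', Real.log_exp]
        ring
      have h3 : (∫ u in (0 : ℝ)..(zz l x t), ww u) - (∫ u in (0 : ℝ)..(zz l a t), ww u) =
          ∫ u in (zz l a t)..(zz l x t), ww u := by
        rw [intervalIntegral.integral_interval_sub_left (ww_cont.intervalIntegrable _ _)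
          (ww_cont.intervalIntegrable _ _)]
      show (∫ u in (0 : ℝ)..(zz l x t), ww u) - (∫ u in (0 : ℝ)..(zz l a t), ww u) = I
      rw [h3, h2]
      have h4 := ww_per.intervalIntegral_add_eq (zz l x t - 2 * Real.pi) 0
      rw [sub_add_cancel, zero_add] at h4
      rw [h4]
    have s4 : (∫ y in a..x, C⁻¹ * a ^ 8 * (ww (zz l y t) * y⁻¹)) ≤
        ∫ y in a..x, y ^ 7 * Rr l y (zz l y t) := by
      refine intervalIntegral.integral_mono_on hax.le (cont1.intervalIntegrable.const_mul _)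
        (i0 a x haa hxa) fun y hy => ?_
      have hy0 : 0 < y := lt_of_lt_of_le ha0 hy.1
      obtain ⟨_, h2, h3, h4, h5, h6, h7, h8, h9⟩ := hC l hl hl1 y (zz l y t) hy0.ne' (by
          rw [abs_of_pos hy0]; linarith [hy.2])
      have h10 : C⁻¹ * ww (zz l y t) ≤ Rr l y (zz l y t) := by
        rcases (ww_nonneg (zz l y t)).eq_or_lt with h11 | h11
        · rw [← h11, mul_zero]
          exact h2.le
        · have h12 := h9 (ww_hh h11)
          calc C⁻¹ * ww (zz l y t) ≤ C⁻¹ * 1 :=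
                mul_le_mul_of_nonneg_left (ww_le _) (by positivity)
            _ = C⁻¹ := mul_one _
            _ ≤ _ := h12
      have h13 : a ^ 8 * y⁻¹ ≤ y ^ 7 := by
        have h14 : a ^ 8 ≤ y ^ 8 := pow_le_pow_left₀ ha0.le hy.1 8
        calc a ^ 8 * y⁻¹ ≤ y ^ 8 * y⁻¹ := mul_le_mul_of_nonneg_right h14 (by positivity)
          _ = y ^ 7 := by field_simp
      have h15 : 0 ≤ C⁻¹ * ww (zz l y t) := mul_nonneg (by positivity) (ww_nonneg _)
      calc C⁻¹ * a ^ 8 * (ww (zz l y t) * y⁻¹) = (a ^ 8 * y⁻¹) * (C⁻¹ * ww (zz l y t)) := by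
            ring
        _ ≤ y ^ 7 * Rr l y (zz l y t) := mul_le_mul h13 h10 h15 (by positivity)
    rw [intervalIntegral.integral_const_mul, s3] at s4
    have s5 : C⁻¹ * Real.exp (-(16 * Real.pi)) * I * x ^ 8 = C⁻¹ * a ^ 8 * I := by
      have h1 : Real.exp (-(2 * Real.pi)) ^ 8 = Real.exp (-(16 * Real.pi)) := by
        rw [← Real.exp_nat_mul]
        congr 1
        push_cast
        ring
      rw [ha, mul_pow, h1]
      ring
    rw [s5, s1]
    linarith
  have pos : 0 ≤ C⁻¹ * Real.exp (-(16 * Real.pi)) * I * x ^ 8 := by positivity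
  refine ⟨low0, ?_, by linarith, ?_, ?_⟩
  · refine up0.trans ?_
    nlinarith [mul_pos hC0 x8]
  · refine up1.trans ?_
    nlinarith [mul_pos hC0 x8]
  · refine up2.trans ?_
    nlinarith [mul_pos hC0 x8]

end Pool.Agent.Helper51.PL
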