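import Pool.Agent.Helper82.PL.Defs

set_option autoImplicit false

open MeasureTheory Set Filter Topology
open Pool.Agent.Helper82.PL

namespace Pool.Agent.Helper51.PL

/-- a function with a bound of order `x ^ 2` which is continuous off the line `x = 0` -/
lemma cont_ext (l ρ C : ℝ) (hρ : 0 < ρ) (k : ℝ → ℝ → ℝ)
    (hk : ContinuousOn (fun q : ℝ × ℝ => k q.1 q.2) {q | q.1 ≠ 0 ∧ |q.1| < ρ})
    (hb : ∀ x z : ℝ, |x| < ρ → |k x z| ≤ C * x ^ 2) (x t : ℝ) (hx : |x| < ρ) :
    ContinuousAt (fun q : ℝ × ℝ => k q.1 (zz l q.1 q.2)) (x, t) := by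
  by_cases h0 : x = 0
  · subst h0
    have hk0 : k 0 (zz l 0 t) = 0 := by
      have := hb 0 (zz l 0 t) (by simpa using hρ)
      simp only [ne_eq, OfNat.ofNat_ne_zero, not_false_eq_true, zero_pow, mul_zero] at this
      exact abs_nonpos_iff.1 this
    unfold ContinuousAt
    show Tendsto (fun q : ℝ × ℝ => k q.1 (zz l q.1 q.2)) (𝓝 (0, t)) (𝓝 (k 0 (zz l 0 t)))
    rw [hk0]
    have h1 : Tendsto (fun q : ℝ × ℝ => C * q.1 ^ 2) (𝓝 (0, t)) (𝓝 0) := by
      have h2 : Continuous fun q : ℝ × ℝ => C * q.1 ^ 2 := by fun_prop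
      have h3 := h2.tendsto (0, t)
      simpa using h3
    have h4 : ∀ᶠ q : ℝ × ℝ in 𝓝 (0, t), |q.1| < ρ := by
      have h5 : Continuous fun q : ℝ × ℝ => |q.1| := by fun_prop
      have h6 := h5.tendsto (0, t)
      simp only [abs_zero] at h6
      exact h6.eventually (gt_mem_nhds hρ)
    refine squeeze_zero_norm' ?_ h1
    filter_upwards [h4] with q hq
    exact hb _ _ hq
  · have h1 : ContinuousAt (fun q : ℝ × ℝ => (q.1, zz l q.1 q.2)) (x, t) := by
      unfold zz
      refine ContinuousAt.prodMk continuous_fst.continuousAt ?_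
      refine ContinuousAt.add ?_ (by fun_prop)
      exact (Real.continuousAt_log h0).comp_of_eq continuous_fst.continuousAt rfl
    have h2 : IsOpen {q : ℝ × ℝ | q.1 ≠ 0 ∧ |q.1| < ρ} := by
      refine IsOpen.inter ?_ ?_
      · exact isOpen_ne_fun continuous_fst continuous_const
      · exact isOpen_lt (continuous_abs.comp continuous_fst) continuous_const
    have h3 : ContinuousAt (fun q : ℝ × ℝ => k q.1 q.2) (x, zz l x t) :=
      hk.continuousAt (h2.mem_nhds ⟨h0, hx⟩)
    exact ContinuousAt.comp_of_eq h3 h1 rfl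

theorem g_ok : stmtG := by
  intro l ρ C hl hρ g g1 gz hg hg1 hgz hb x t hx
  have hb0 : ∀ x z : ℝ, |x| < ρ → |g x z| ≤ C * x ^ 2 := fun x z h => (hb x z h).1
  have hb1 : ∀ x z : ℝ, |x| < ρ → |g1 x z| ≤ C * x ^ 2 := fun x z h => (hb x z h).2.1
  have hbz : ∀ x z : ℝ, |x| < ρ → |gz x z| ≤ C * x ^ 2 := fun x z h => (hb x z h).2.2
  have hgc : ContinuousOn (fun q : ℝ × ℝ => g q.1 q.2) {q | q.1 ≠ 0 ∧ |q.1| < ρ} := by
    intro q hq
    exact (hg q.1 q.2 hq.1 hq.2).continuousAt.continuousWithinAt
  have c0 := cont_ext l ρ C hρ g hgc hb0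
  have c1 := cont_ext l ρ C hρ g1 hg1 hb1
  have cz := cont_ext l ρ C hρ gz hgz hbz
  -- continuity of the slices
  have slice : ∀ (k : ℝ → ℝ → ℝ), (∀ x t : ℝ, |x| < ρ →
      ContinuousAt (fun q : ℝ × ℝ => k q.1 (zz l q.1 q.2)) (x, t)) → ∀ t : ℝ,
      ContinuousOn (fun y => k y (zz l y t)) {y | |y| < ρ} := by
    intro k hk t y hy
    have h1 := hk y t hy
    have h2 : ContinuousAt (fun y : ℝ => (y, t)) y := by fun_prop
    exact (ContinuousAt.comp_of_eq h1 h2 rfl).continuousWithinAt
  have sub : ∀ a b : ℝ, |a| < ρ → |b| < ρ → uIcc a b ⊆ {y | |y| < ρ} := by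
    intro a b ha hb' y hy
    rw [mem_uIcc] at hy
    rw [abs_lt] at ha hb'
    show |y| < ρ
    rw [abs_lt]
    rcases hy with h | h
    · constructor <;> linarith
    · constructor <;> linarith
  have z0 : |(0 : ℝ)| < ρ := by simpa using hρ
  have int : ∀ (k : ℝ → ℝ → ℝ), (∀ x t : ℝ, |x| < ρ →
      ContinuousAt (fun q : ℝ × ℝ => k q.1 (zz l q.1 q.2)) (x, t)) → ∀ t a b : ℝ, |a| < ρ →
      |b| < ρ → IntervalIntegrable (fun y => k y (zz l y t)) volume a b := by
    intro k hk t a b ha hb'
    exact ((slice k hk t).mono (sub a b ha hb')).intervalIntegrable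
  -- derivative in t
  have hB : HasDerivAt (fun s => ∫ y in (0 : ℝ)..x, g y (zz l y s))
      (∫ y in (0 : ℝ)..x, l * gz y (zz l y t)) t := by
    refine (intervalIntegral.hasDerivAt_integral_of_dominated_loc_of_deriv_le
      (F := fun s y => g y (zz l y s)) (F' := fun s y => l * gz y (zz l y s)) (x₀ := t)
      (s := univ) (bound := fun y => l * (C * y ^ 2)) univ_mem ?_ (int g c0 t 0 x z0 hx) ?_ ?_ ?_
      ?_).2
    · filter_upwards with s
      exact (int g c0 s 0 x z0 hx).aestronglyMeasurable_restrict_uIoc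
    · exact ((int gz cz t 0 x z0 hx).const_mul l).aestronglyMeasurable_restrict_uIoc
    · filter_upwards with y hy s _
      have h1 : |y| < ρ := sub 0 x z0 hx (uIoc_subset_uIcc hy)
      rw [Real.norm_eq_abs, abs_mul, abs_of_pos hl]
      exact mul_le_mul_of_nonneg_left (hbz _ _ h1) hl.le
    · exact (by fun_prop : Continuous fun y : ℝ => l * (C * y ^ 2)).intervalIntegrable _ _
    · filter_upwards with y hy s _
      have h1 : |y| < ρ := sub 0 x z0 hx (uIoc_subset_uIcc hy)
      by_cases h0 : y = 0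
      · subst h0
        have e1 : (fun s => g 0 (zz l 0 s)) = fun _ => (0 : ℝ) := by
          funext s
          have := hb0 0 (zz l 0 s) z0
          simp only [ne_eq, OfNat.ofNat_ne_zero, not_false_eq_true, zero_pow, mul_zero] at this
          exact abs_nonpos_iff.1 this
        have e2 : l * gz 0 (zz l 0 s) = 0 := by
          have := hbz 0 (zz l 0 s) z0
          simp only [ne_eq, OfNat.ofNat_ne_zero, not_false_eq_true, zero_pow, mul_zero] at this
          rw [abs_nonpos_iff.1 this, mul_zero]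
        rw [e1, e2]
        exact hasDerivAt_const _ _
      · have h2 := hg y (zz l y s) h0 h1
        have h3 : HasDerivAt (fun s : ℝ => (y, zz l y s)) ((0 : ℝ), l) s := by
          refine HasDerivAt.prodMk (hasDerivAt_const _ _) ?_
          unfold zz
          have h4 := ((hasDerivAt_id s).const_mul l).const_add (Real.log y)
          rw [mul_one] at h4
          exact h4
        have h4 := HasFDerivAt.comp_hasDerivAt_of_eq s h2 h3 rfl
        simp at h4
        rw [mul_comm]
        exact h4
  -- computation of the integral of gz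
  have hI : (∫ y in (0 : ℝ)..x, gz y (zz l y t)) =
      x * g x (zz l x t) - ∫ y in (0 : ℝ)..x, (g y (zz l y t) + g1 y (zz l y t)) := by
    have h1 : ∀ y : ℝ, |y| < ρ → HasDerivAt (fun y => y * g y (zz l y t))
        (g y (zz l y t) + g1 y (zz l y t) + gz y (zz l y t)) y := by
      intro y hy
      by_cases h0 : y = 0
      · subst h0
        have e0 : g 0 (zz l 0 t) = 0 := by
          have := hb0 0 (zz l 0 t) z0
          simp only [ne_eq, OfNat.ofNat_ne_zero, not_false_eq_true, zero_pow, mul_zero] at this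
          exact abs_nonpos_iff.1 this
        have e1 : g1 0 (zz l 0 t) = 0 := by
          have := hb1 0 (zz l 0 t) z0
          simp only [ne_eq, OfNat.ofNat_ne_zero, not_false_eq_true, zero_pow, mul_zero] at this
          exact abs_nonpos_iff.1 this
        have e2 : gz 0 (zz l 0 t) = 0 := by
          have := hbz 0 (zz l 0 t) z0
          simp only [ne_eq, OfNat.ofNat_ne_zero, not_false_eq_true, zero_pow, mul_zero] at this
          exact abs_nonpos_iff.1 this
        rw [e0, e1, e2, add_zero, add_zero]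
        rw [hasDerivAt_iff_isLittleO_nhds_zero]
        have h2 : (fun h : ℝ => h ^ 2) =o[𝓝 0] fun h : ℝ => h := by
          simpa using (Asymptotics.isLittleO_pow_id (𝕜 := ℝ) (n := 2) (by norm_num))
        refine Asymptotics.IsBigO.trans_isLittleO ?_ h2
        refine Asymptotics.IsBigO.of_bound (|C| * ρ) ?_
        have h4 : ∀ᶠ h : ℝ in 𝓝 0, |h| < ρ := by
          have h6 := continuous_abs.tendsto (0 : ℝ)
          rw [abs_zero] at h6
          exact h6.eventually (gt_mem_nhds hρ)
        filter_upwards [h4] with h hh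
        rw [zero_add, zero_mul, smul_zero, sub_zero, sub_zero, Real.norm_eq_abs, abs_mul,
          Real.norm_eq_abs, abs_of_nonneg (sq_nonneg h)]
        have h7 := hb0 h (zz l h t) hh
        have h8 : |g h (zz l h t)| ≤ |C| * h ^ 2 :=
          h7.trans (mul_le_mul_of_nonneg_right (le_abs_self C) (sq_nonneg h))
        calc |h| * |g h (zz l h t)| ≤ ρ * (|C| * h ^ 2) := by gcongr
          _ = |C| * ρ * h ^ 2 := by ring
      · have h2 := hg y (zz l y t) h0 hy
        have h3 : HasDerivAt (fun y : ℝ => (y, zz l y t)) ((1 : ℝ), y⁻¹) y := by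
          refine HasDerivAt.prodMk (hasDerivAt_id y) ?_
          unfold zz
          exact (Real.hasDerivAt_log h0).add_const _
        have h4 := HasFDerivAt.comp_hasDerivAt_of_eq y h2 h3 rfl
        have h5 := (hasDerivAt_id y).mul h4
        simp at h5
        have h6 : g y (zz l y t) + y * (g1 y (zz l y t) / y + gz y (zz l y t) * y⁻¹) =
            g y (zz l y t) + g1 y (zz l y t) + gz y (zz l y t) := by
          field_simp
          ring
        rw [← h6]
        exact h5
    have i0 := int g c0 t 0 x z0 hx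
    have i1 := int g1 c1 t 0 x z0 hx
    have i2 := int gz cz t 0 x z0 hx
    have h2 := intervalIntegral.integral_eq_sub_of_hasDerivAt
      (f := fun y => y * g y (zz l y t))
      (f' := fun y => g y (zz l y t) + g1 y (zz l y t) + gz y (zz l y t)) (a := 0) (b := x)
      (fun y hy => h1 y (sub 0 x z0 hx hy)) ((i0.add i1).add i2)
    rw [intervalIntegral.integral_add (i0.add i1) i2] at h2
    simp only [zero_mul, sub_zero] at h2
    linarith
  -- assemble
  have hB' : HasFDerivAt (fun q : ℝ × ℝ => ∫ y in (0 : ℝ)..x, g y (zz l y q.2))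
      ((l * (x * g x (zz l x t) -
          ∫ y in (0 : ℝ)..x, (g y (zz l y t) + g1 y (zz l y t)))) •
          ContinuousLinearMap.snd ℝ ℝ ℝ) (x, t) := by
    rw [← hI, ← intervalIntegral.integral_const_mul]
    have h1 : HasFDerivAt (fun q : ℝ × ℝ => q.2) (ContinuousLinearMap.snd ℝ ℝ ℝ) (x, t) :=
      hasFDerivAt_snd
    exact HasDerivAt.comp_hasFDerivAt_of_eq (x, t) hB h1 rfl
  have hA : HasFDerivAt (fun q : ℝ × ℝ => ∫ y in x..q.1, g y (zz l y q.2))
      (g x (zz l x t) • ContinuousLinearMap.fst ℝ ℝ ℝ) (x, t) := by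
    rw [hasFDerivAt_iff_isLittleO_nhds_zero, Asymptotics.isLittleO_iff]
    intro ε hε
    have h1 := c0 x t hx
    rw [Metric.continuousAt_iff] at h1
    obtain ⟨δ, hδ, h1⟩ := h1 ε hε
    obtain ⟨δ', hδ', h2⟩ : ∃ δ' > 0, ∀ y, |y - x| < δ' → |y| < ρ := by
      refine ⟨ρ - |x|, by linarith, fun y hy => ?_⟩
      have := abs_sub_abs_le_abs_sub y x
      linarith
    have h3 : ∀ᶠ h : ℝ × ℝ in 𝓝 0, ‖h‖ < min δ δ' := by
      have h6 := (continuous_norm (E := ℝ × ℝ)).tendsto 0
      rw [norm_zero] at h6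
      exact h6.eventually (gt_mem_nhds (lt_min hδ hδ'))
    filter_upwards [h3] with h hh
    have h4 : |h.1| ≤ ‖h‖ := norm_fst_le h
    have h5 : |h.2| ≤ ‖h‖ := norm_snd_le h
    have h6 : ‖h‖ < δ := lt_of_lt_of_le hh (min_le_left _ _)
    have h7 : ‖h‖ < δ' := lt_of_lt_of_le hh (min_le_right _ _)
    have h8 : |x + h.1| < ρ := h2 _ (by rw [add_sub_cancel_left]; linarith)
    simp only [Prod.fst_add, Prod.snd_add, intervalIntegral.integral_same, sub_zero,
      ContinuousLinearMap.smul_apply, ContinuousLinearMap.coe_fst', smul_eq_mul]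
    have h9 : (∫ y in x..(x + h.1), g y (zz l y (t + h.2))) - g x (zz l x t) * h.1 =
        ∫ y in x..(x + h.1), (g y (zz l y (t + h.2)) - g x (zz l x t)) := by
      rw [intervalIntegral.integral_sub (int g c0 _ _ _ hx h8) (by simp)]
      simp only [intervalIntegral.integral_const, add_sub_cancel_left, smul_eq_mul]
      ring
    rw [h9]
    refine (intervalIntegral.norm_integral_le_of_norm_le_const (C := ε) fun y hy => ?_).trans ?_
    · have h10 : |y - x| ≤ |h.1| := by
        have h11 := uIoc_subset_uIcc hy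
        rw [mem_uIcc] at h11
        rcases h11 with h12 | h12
        · rw [abs_of_nonneg (by linarith), abs_of_nonneg (by linarith)]
          linarith
        · rw [abs_of_nonpos (by linarith), abs_of_nonpos (by linarith)]
          linarith
      have h13 := @h1 (y, t + h.2) (by
        rw [Prod.dist_eq, max_lt_iff]
        constructor
        · rw [Real.dist_eq]
          show |y - x| < δ
          linarith
        · rw [Real.dist_eq]
          show |t + h.2 - t| < δ
          rw [add_sub_cancel_left]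
          linarith)
      rw [Real.dist_eq] at h13
      exact h13.le
    · rw [add_sub_cancel_left]
      exact mul_le_mul_of_nonneg_left h4 hε.le
  have hsum : (fun q : ℝ × ℝ => ∫ y in (0 : ℝ)..q.1, g y (zz l y q.2)) =ᶠ[𝓝 (x, t)]
      fun q : ℝ × ℝ => (∫ y in x..q.1, g y (zz l y q.2)) +
        ∫ y in (0 : ℝ)..x, g y (zz l y q.2) := by
    have h4 : ∀ᶠ q : ℝ × ℝ in 𝓝 (x, t), |q.1| < ρ := by
      have h5 : Continuous fun q : ℝ × ℝ => |q.1| := by fun_prop
      have h6 := h5.tendsto (x, t)
      exact h6.eventually (gt_mem_nhds hx)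
    filter_upwards [h4] with q hq
    rw [add_comm]
    exact (intervalIntegral.integral_add_adjacent_intervals (int g c0 _ _ _ z0 hx)
      (int g c0 _ _ _ hx hq)).symm
  exact (hA.add hB').congr_of_eventuallyEq hsum

end Pool.Agent.Helper51.PL
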