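import Pool.Agent.Helper82.PL.Defs

set_option autoImplicit false

open MeasureTheory Set Filter Topology
open Pool.Agent.Helper82.PL

namespace Pool.Agent.Helper51.PL

lemma powz_cont (l Λ : ℝ) (k : ℕ) (hk : 1 ≤ k) (f : ℝ → ℝ) (hf : Continuous f)
    (hb : ∀ z, |f z| ≤ Λ) : Continuous fun q : ℝ × ℝ => q.1 ^ k * f (zz l q.1 q.2) := by
  rw [continuous_iff_continuousAt]
  rintro ⟨x, t⟩
  by_cases h0 : x = 0
  · subst h0
    unfold ContinuousAt
    show Tendsto (fun q : ℝ × ℝ => q.1 ^ k * f (zz l q.1 q.2)) (𝓝 (0, t))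
      (𝓝 ((0 : ℝ) ^ k * f (zz l 0 t)))
    rw [zero_pow (by omega), zero_mul]
    have h2 : Tendsto (fun q : ℝ × ℝ => |q.1| ^ k * Λ) (𝓝 (0, t)) (𝓝 0) := by
      have h3 : Continuous fun q : ℝ × ℝ => |q.1| ^ k * Λ := by fun_prop
      have h4 := h3.tendsto (0, t)
      simp only [abs_zero] at h4
      rwa [zero_pow (by omega), zero_mul] at h4
    refine squeeze_zero_norm (fun q => ?_) h2
    rw [Real.norm_eq_abs, abs_mul, abs_pow]
    exact mul_le_mul_of_nonneg_left (hb _) (by positivity)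
  · have h1 : ContinuousAt (fun q : ℝ × ℝ => zz l q.1 q.2) (x, t) := by
      unfold zz
      refine ContinuousAt.add ?_ (by fun_prop)
      exact (Real.continuousAt_log h0).comp_of_eq continuous_fst.continuousAt rfl
    have h2 : ContinuousAt (fun q : ℝ × ℝ => f (zz l q.1 q.2)) (x, t) :=
      ContinuousAt.comp_of_eq hf.continuousAt h1 rfl
    have h3 : ContinuousAt (fun q : ℝ × ℝ => q.1 ^ k) (x, t) := by fun_prop
    exact h3.mul h2

lemma powz_deriv (l Λ : ℝ) (k : ℕ) (f f' : ℝ → ℝ) (hf : ∀ z, HasDerivAt f (f' z) z)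
    (hb : ∀ z, |f z| ≤ Λ) (x t : ℝ) :
    HasFDerivAt (fun q : ℝ × ℝ => q.1 ^ (k + 2) * f (zz l q.1 q.2))
      ((x ^ (k + 1) * ((k + 2) * f (zz l x t) + f' (zz l x t))) • ContinuousLinearMap.fst ℝ ℝ ℝ +
        (l * x ^ (k + 2) * f' (zz l x t)) • ContinuousLinearMap.snd ℝ ℝ ℝ) (x, t) := by
  by_cases h0 : x = 0
  · subst h0
    have e1 : ((0 : ℝ) ^ (k + 1) * ((k + 2) * f (zz l 0 t) + f' (zz l 0 t))) •
        ContinuousLinearMap.fst ℝ ℝ ℝ +
        (l * (0 : ℝ) ^ (k + 2) * f' (zz l 0 t)) • ContinuousLinearMap.snd ℝ ℝ ℝ = 0 := by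
      rw [zero_pow (by omega), zero_pow (by omega)]
      simp
    rw [e1]
    rw [hasFDerivAt_iff_isLittleO_nhds_zero, Asymptotics.isLittleO_iff]
    intro c hc
    have hΛ : 0 ≤ Λ := (abs_nonneg _).trans (hb 0)
    have h3 : ∀ᶠ h : ℝ × ℝ in 𝓝 0, ‖h‖ < min 1 (c / (Λ + 1)) := by
      have h6 := (continuous_norm (E := ℝ × ℝ)).tendsto 0
      rw [norm_zero] at h6
      exact h6.eventually (gt_mem_nhds (lt_min one_pos (by positivity)))
    filter_upwards [h3] with h hh
    have h4 : |h.1| ≤ ‖h‖ := norm_fst_le h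
    have h6 : ‖h‖ < 1 := lt_of_lt_of_le hh (min_le_left _ _)
    have h7 : ‖h‖ < c / (Λ + 1) := lt_of_lt_of_le hh (min_le_right _ _)
    have h8 : |h.1| * (Λ + 1) ≤ c := by
      rw [lt_div_iff₀ (by positivity)] at h7
      nlinarith
    simp only [Prod.fst_add, Prod.snd_add, zero_add, sub_zero, ContinuousLinearMap.zero_apply]
    rw [zero_pow (by omega), zero_mul, sub_zero, Real.norm_eq_abs, abs_mul, abs_pow]
    have h9 : |h.1| ^ (k + 2) ≤ |h.1| * |h.1| := by
      have h10 : |h.1| ^ k ≤ 1 := pow_le_one₀ (abs_nonneg _) (by linarith)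
      calc |h.1| ^ (k + 2) = |h.1| ^ k * (|h.1| * |h.1|) := by ring
        _ ≤ 1 * (|h.1| * |h.1|) := mul_le_mul_of_nonneg_right h10 (by positivity)
        _ = _ := one_mul _
    calc |h.1| ^ (k + 2) * |f (zz l h.1 (t + h.2))| ≤ |h.1| * |h.1| * Λ :=
          mul_le_mul h9 (hb _) (abs_nonneg _) (by positivity)
      _ ≤ |h.1| * (|h.1| * (Λ + 1)) := by
          have := abs_nonneg h.1
          nlinarith [mul_nonneg this this]
      _ ≤ ‖h‖ * c := mul_le_mul h4 h8 (by positivity) (norm_nonneg _)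
      _ = c * ‖h‖ := mul_comm _ _
  · have h1 : HasFDerivAt (fun q : ℝ × ℝ => zz l q.1 q.2)
        (x⁻¹ • ContinuousLinearMap.fst ℝ ℝ ℝ + l • ContinuousLinearMap.snd ℝ ℝ ℝ) (x, t) := by
      unfold zz
      have a1 : HasFDerivAt (fun q : ℝ × ℝ => Real.log q.1)
          (x⁻¹ • ContinuousLinearMap.fst ℝ ℝ ℝ) (x, t) :=
        HasDerivAt.comp_hasFDerivAt_of_eq (x, t) (Real.hasDerivAt_log h0) hasFDerivAt_fst rfl
      have a2 : HasFDerivAt (fun q : ℝ × ℝ => l * q.2)
          (l • ContinuousLinearMap.snd ℝ ℝ ℝ) (x, t) := hasFDerivAt_snd.const_mul l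
      exact a1.add a2
    have h2 : HasFDerivAt (fun q : ℝ × ℝ => f (zz l q.1 q.2))
        (f' (zz l x t) • (x⁻¹ • ContinuousLinearMap.fst ℝ ℝ ℝ +
          l • ContinuousLinearMap.snd ℝ ℝ ℝ)) (x, t) :=
      HasDerivAt.comp_hasFDerivAt_of_eq (x, t) (hf (zz l x t)) h1 rfl
    have h3 : HasFDerivAt (fun q : ℝ × ℝ => q.1 ^ (k + 2))
        (((k + 2 : ℕ) * x ^ (k + 1)) • ContinuousLinearMap.fst ℝ ℝ ℝ) (x, t) := by
      have := HasDerivAt.comp_hasFDerivAt_of_eq (x, t) (hasDerivAt_pow (k + 2) x)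
        (hasFDerivAt_fst (𝕜 := ℝ) (E := ℝ) (F := ℝ) (p := (x, t))) rfl
      exact this
    have h4 := h3.mul h2
    refine h4.congr_fderiv ?_
    ext v
    · simp
      field_simp
      ring
    · simp
      ring

theorem jetA_ok (h : stmtProf) : stmtJetA := by
  obtain ⟨Λ, hΛ1, hΛ⟩ := h.bdd
  intro l hl hl1
  have b1 : ∀ z, |Ph z| ≤ Λ := fun z => (hΛ z).2.2.1
  have b2 : ∀ z, |hh z| ≤ Λ := fun z => (hΛ z).1
  have b3 : ∀ z, |ph z| ≤ Λ := fun z => (hΛ z).2.2.2.1
  have b4 : ∀ z, |hh' z| ≤ Λ := fun z => (hΛ z).2.1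
  have b5 : ∀ z, |ph' z| ≤ Λ := fun z => (hΛ z).2.2.2.2.1
  have chh : Continuous hh := continuous_iff_continuousAt.2 fun z => (h.dh z).continuousAt
  refine ⟨?_, ?_, ?_, ?_, ?_, ?_⟩
  · rintro ⟨x, t⟩ -
    have h1 := powz_deriv l Λ 2 Ph ph h.dPh b1 x t
    refine h1.congr_fderiv ?_
    congr 1
    · congr 1
      unfold ax ph
      norm_num
  · rintro ⟨x, t⟩ -
    have h1 := powz_deriv l Λ 1 hh hh' h.dh b2 x t
    refine h1.congr_fderiv ?_
    congr 1
    · congr 1
      unfold axx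
      norm_num
  · rintro ⟨x, t⟩ -
    have h1 := (powz_deriv l Λ 2 ph ph' h.dph b3 x t).const_mul l
    have h2 : (fun q : ℝ × ℝ => at' l q.1 q.2) =
        fun q : ℝ × ℝ => l * (q.1 ^ (2 + 2) * ph (zz l q.1 q.2)) := by
      funext q
      unfold at'
      ring
    rw [h2]
    refine h1.congr_fderiv ?_
    rw [smul_add, smul_smul, smul_smul]
    congr 1
    · congr 1
      unfold axt ph'
      norm_num
      ring
    · congr 1
      unfold att
      norm_num
      ring
  · have h1 : Continuous fun q : ℝ × ℝ => axx l q.1 q.2 :=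
      powz_cont l (4 * Λ) 2 (by norm_num) (fun z => 3 * hh z + hh' z)
        ((chh.const_mul 3).add h.ch') (fun z => by
          have := abs_add_le (3 * hh z) (hh' z)
          rw [abs_mul, abs_of_pos (by norm_num : (0 : ℝ) < 3)] at this
          have := b2 z
          have := b4 z
          linarith)
    exact h1.continuousOn
  · have h1 := (powz_cont l Λ 3 (by norm_num) hh' h.ch' b4).const_mul l
    have h2 : (fun q : ℝ × ℝ => axt l q.1 q.2) =
        fun q : ℝ × ℝ => l * (q.1 ^ 3 * hh' (zz l q.1 q.2)) := by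
      funext q
      unfold axt
      ring
    rw [h2]
    exact h1.continuousOn
  · have h1 := (powz_cont l Λ 4 (by norm_num) ph' h.cph' b5).const_mul (l ^ 2)
    have h2 : (fun q : ℝ × ℝ => att l q.1 q.2) =
        fun q : ℝ × ℝ => l ^ 2 * (q.1 ^ 4 * ph' (zz l q.1 q.2)) := by
      funext q
      unfold att
      ring
    rw [h2]
    exact h1.continuousOn

lemma ch_smooth : ContDiff ℝ (⊤ : ℕ∞) ch := by
  unfold ch
  exact Real.smoothTransition.contDiff.comp (by fun_prop)

lemma ch_one {x : ℝ} (hx : x ^ 2 ≤ 1 / 3) : ch x = 1 := by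
  unfold ch
  exact Real.smoothTransition.one_of_one_le (by linarith)

lemma ch_zero {x : ℝ} (hx : 2 / 3 ≤ x ^ 2) : ch x = 0 := by
  unfold ch
  exact Real.smoothTransition.zero_of_nonpos (by linarith)

lemma sq_le_of_abs {x : ℝ} (hx : |x| ≤ 1 / 3) : x ^ 2 < 1 / 3 := by
  have : x ^ 2 = |x| ^ 2 := (sq_abs x).symm
  rw [this]
  nlinarith [abs_nonneg x]

lemma sq_ge_of_abs {x : ℝ} (hx : 1 ≤ |x|) : 2 / 3 < x ^ 2 := by
  have : x ^ 2 = |x| ^ 2 := (sq_abs x).symm
  rw [this]
  nlinarith [abs_nonneg x]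

lemma deriv_eventually_const {f : ℝ → ℝ} {c x : ℝ} (h : f =ᶠ[𝓝 x] fun _ => c) :
    deriv f =ᶠ[𝓝 x] fun _ => (0 : ℝ) := by
  have h1 := h.deriv
  filter_upwards [h1] with y hy
  rw [hy]
  simp

lemma ch_near_one {x : ℝ} (hx : |x| ≤ 1 / 3) : ch =ᶠ[𝓝 x] fun _ => (1 : ℝ) := by
  have h1 : ∀ᶠ y in 𝓝 x, y ^ 2 < 1 / 3 :=
    (by fun_prop : Continuous fun y : ℝ => y ^ 2).continuousAt.eventually
      (gt_mem_nhds (sq_le_of_abs hx))
  filter_upwards [h1] with y hy
  exact ch_one hy.le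

lemma ch_near_zero {x : ℝ} (hx : 1 ≤ |x|) : ch =ᶠ[𝓝 x] fun _ => (0 : ℝ) := by
  have h1 : ∀ᶠ y in 𝓝 x, 2 / 3 < y ^ 2 :=
    (by fun_prop : Continuous fun y : ℝ => y ^ 2).continuousAt.eventually
      (lt_mem_nhds (sq_ge_of_abs hx))
  filter_upwards [h1] with y hy
  exact ch_zero hy.le

lemma ch_d0 (x : ℝ) : HasDerivAt ch (deriv ch x) x :=
  (ch_smooth.differentiable (by simp)).differentiableAt.hasDerivAt

lemma ch'_smooth : ContDiff ℝ (⊤ : ℕ∞) (deriv ch) := by
  have h1 : ContDiff ℝ ((⊤ : ℕ∞) + 1 : WithTop ℕ∞) ch := by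
    simpa using ch_smooth
  exact (contDiff_succ_iff_deriv.1 h1).2.2

lemma ch_d1 (x : ℝ) : HasDerivAt (deriv ch) (deriv (deriv ch) x) x :=
  (ch'_smooth.differentiable (by simp)).differentiableAt.hasDerivAt

lemma ch''_cont : Continuous (deriv (deriv ch)) :=
  ch'_smooth.continuous_deriv (by simp)

/-- product of a function of the first variable with a function of two variables -/
lemma prod_fst (c : ℝ → ℝ) (c' x t : ℝ) (hc : HasDerivAt c c' x) (b : ℝ → ℝ → ℝ) (bx bt : ℝ)
    (hb : HasFDerivAt (fun q : ℝ × ℝ => b q.1 q.2)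
      (bx • ContinuousLinearMap.fst ℝ ℝ ℝ + bt • ContinuousLinearMap.snd ℝ ℝ ℝ) (x, t)) :
    HasFDerivAt (fun q : ℝ × ℝ => c q.1 * b q.1 q.2)
      ((c' * b x t + c x * bx) • ContinuousLinearMap.fst ℝ ℝ ℝ +
        (c x * bt) • ContinuousLinearMap.snd ℝ ℝ ℝ) (x, t) := by
  have h1 : HasFDerivAt (fun q : ℝ × ℝ => c q.1) (c' • ContinuousLinearMap.fst ℝ ℝ ℝ) (x, t) :=
    HasDerivAt.comp_hasFDerivAt_of_eq (x, t) hc hasFDerivAt_fst rfl
  have h2 := h1.mul hb
  refine h2.congr_fderiv ?_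
  ext v
  · simp
    ring
  · simp

theorem jetAA_ok (h : stmtProf) (hA : stmtJetA) : stmtJetAA := by
  obtain ⟨Λ, hΛ1, hΛ⟩ := h.bdd
  intro l hl hl1
  have J := hA l hl hl1
  have b1 : ∀ z, |Ph z| ≤ Λ := fun z => (hΛ z).2.2.1
  have b2 : ∀ z, |hh z| ≤ Λ := fun z => (hΛ z).1
  have b3 : ∀ z, |ph z| ≤ Λ := fun z => (hΛ z).2.2.2.1
  have b4 : ∀ z, |hh' z| ≤ Λ := fun z => (hΛ z).2.1
  have b5 : ∀ z, |ph' z| ≤ Λ := fun z => (hΛ z).2.2.2.2.1
  have c0 : Continuous fun q : ℝ × ℝ => ch q.1 := ch_smooth.continuous.comp continuous_fst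
  have c1 : Continuous fun q : ℝ × ℝ => deriv ch q.1 :=
    ch'_smooth.continuous.comp continuous_fst
  have c2 : Continuous fun q : ℝ × ℝ => deriv (deriv ch) q.1 := ch''_cont.comp continuous_fst
  have ca0 : Continuous fun q : ℝ × ℝ => a0 l q.1 q.2 :=
    continuous_iff_continuousAt.2 fun q => (J.d0 q (mem_univ q)).continuousAt
  have cax : Continuous fun q : ℝ × ℝ => ax l q.1 q.2 :=
    continuous_iff_continuousAt.2 fun q => (J.d1 q (mem_univ q)).continuousAt
  have cat : Continuous fun q : ℝ × ℝ => at' l q.1 q.2 :=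
    continuous_iff_continuousAt.2 fun q => (J.d2 q (mem_univ q)).continuousAt
  have caxx : Continuous fun q : ℝ × ℝ => axx l q.1 q.2 := continuousOn_univ.1 J.c0
  have caxt : Continuous fun q : ℝ × ℝ => axt l q.1 q.2 := continuousOn_univ.1 J.c1
  have catt : Continuous fun q : ℝ × ℝ => att l q.1 q.2 := continuousOn_univ.1 J.c2
  refine ⟨⟨?_, ?_, ?_, ?_, ?_, ?_⟩, ?_, ?_, ?_, ?_⟩
  · rintro ⟨x, t⟩ -
    exact prod_fst ch _ x t (ch_d0 x) (a0 l) _ _ (J.d0 (x, t) (mem_univ _))
  · rintro ⟨x, t⟩ -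
    have h1 := prod_fst (deriv ch) _ x t (ch_d1 x) (a0 l) _ _ (J.d0 (x, t) (mem_univ _))
    have h2 := prod_fst ch _ x t (ch_d0 x) (ax l) _ _ (J.d1 (x, t) (mem_univ _))
    have h3 := h1.add h2
    refine h3.congr_fderiv ?_
    ext v
    · simp [Axx]
      ring
    · simp [Axt]
  · rintro ⟨x, t⟩ -
    have h1 := prod_fst ch _ x t (ch_d0 x) (at' l) _ _ (J.d2 (x, t) (mem_univ _))
    exact h1
  · have : Continuous fun q : ℝ × ℝ => Axx l q.1 q.2 := by
      unfold Axx
      exact ((c2.mul ca0).add ((c1.const_mul 2).mul cax)).add (c0.mul caxx)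
    exact this.continuousOn
  · have : Continuous fun q : ℝ × ℝ => Axt l q.1 q.2 := by
      unfold Axt
      exact (c1.mul cat).add (c0.mul caxt)
    exact this.continuousOn
  · have : Continuous fun q : ℝ × ℝ => Att l q.1 q.2 := by
      unfold Att
      exact c0.mul catt
    exact this.continuousOn
  · intro x t hx
    have e0 : ch x = 1 := (ch_near_one hx).self_of_nhds
    have e1 : deriv ch x = 0 := (deriv_eventually_const (ch_near_one hx)).self_of_nhds
    have e2 : deriv (deriv ch) x = 0 :=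
      (deriv_eventually_const (deriv_eventually_const (ch_near_one hx))).self_of_nhds
    unfold A0 Ax At Axx Axt Att
    rw [e0, e1, e2]
    simp
  · intro x t hx
    have e0 : ch x = 0 := (ch_near_zero hx).self_of_nhds
    have e1 : deriv ch x = 0 := (deriv_eventually_const (ch_near_zero hx)).self_of_nhds
    have e2 : deriv (deriv ch) x = 0 :=
      (deriv_eventually_const (deriv_eventually_const (ch_near_zero hx))).self_of_nhds
    unfold A0 Ax At Axx Axt Att
    rw [e0, e1, e2]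
    simp
  · intro t
    unfold A0 Ax At Axx Axt Att a0 ax at' axx axt att
    simp
  · obtain ⟨B1, hB1⟩ := (isCompact_Icc (a := (-1 : ℝ)) (b := 1)).exists_bound_of_continuousOn
      (ch'_smooth.continuous.continuousOn)
    obtain ⟨B2, hB2⟩ := (isCompact_Icc (a := (-1 : ℝ)) (b := 1)).exists_bound_of_continuousOn
      (ch''_cont.continuousOn)
    have hB10 : 0 ≤ B1 := (norm_nonneg _).trans (hB1 0 (by norm_num))
    have hB20 : 0 ≤ B2 := (norm_nonneg _).trans (hB2 0 (by norm_num))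
    have hΛ0 : 0 < Λ := by linarith
    refine ⟨(4 + 2 * B1 + B2) * Λ, by positivity, fun x t => ?_⟩
    rcases le_total 1 |x| with hx | hx
    · have e0 : ch x = 0 := (ch_near_zero hx).self_of_nhds
      have e1 : deriv ch x = 0 := (deriv_eventually_const (ch_near_zero hx)).self_of_nhds
      have e2 : deriv (deriv ch) x = 0 :=
        (deriv_eventually_const (deriv_eventually_const (ch_near_zero hx))).self_of_nhds
      unfold A0 Ax At Axx Axt Att
      rw [e0, e1, e2]
      have : 0 ≤ (4 + 2 * B1 + B2) * Λ := by positivity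
      simp [this]
    · have hx' : x ∈ Icc (-1 : ℝ) 1 := abs_le.1 hx
      have f1 : |deriv ch x| ≤ B1 := hB1 x hx'
      have f2 : |deriv (deriv ch) x| ≤ B2 := hB2 x hx'
      have f0 : |ch x| ≤ 1 := by
        unfold ch
        rw [abs_of_nonneg (Real.smoothTransition.nonneg _)]
        exact Real.smoothTransition.le_one _
      have pw : ∀ k : ℕ, |x| ^ k ≤ 1 := fun k => pow_le_one₀ (abs_nonneg _) hx
      have ll : |l| ≤ 1 := by rw [abs_of_pos hl]; exact hl1
      have g0 : |a0 l x t| ≤ Λ := by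
        unfold a0
        rw [abs_mul, abs_pow]
        calc |x| ^ 4 * |Ph (zz l x t)| ≤ 1 * Λ :=
              mul_le_mul (pw 4) (b1 _) (abs_nonneg _) zero_le_one
          _ = Λ := one_mul _
      have g1 : |ax l x t| ≤ Λ := by
        unfold ax
        rw [abs_mul, abs_pow]
        calc |x| ^ 3 * |hh (zz l x t)| ≤ 1 * Λ :=
              mul_le_mul (pw 3) (b2 _) (abs_nonneg _) zero_le_one
          _ = Λ := one_mul _
      have g2 : |at' l x t| ≤ Λ := by
        unfold at'
        rw [abs_mul, abs_mul, abs_pow]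
        calc |l| * |x| ^ 4 * |ph (zz l x t)| ≤ 1 * 1 * Λ :=
              mul_le_mul (mul_le_mul ll (pw 4) (by positivity) zero_le_one) (b3 _)
                (abs_nonneg _) (by norm_num)
          _ = Λ := by ring
      have g3 : |axx l x t| ≤ 4 * Λ := by
        unfold axx
        rw [abs_mul, abs_pow]
        have : |3 * hh (zz l x t) + hh' (zz l x t)| ≤ 4 * Λ := by
          have := abs_add_le (3 * hh (zz l x t)) (hh' (zz l x t))
          rw [abs_mul, abs_of_pos (by norm_num : (0 : ℝ) < 3)] at this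
          have := b2 (zz l x t)
          have := b4 (zz l x t)
          linarith
        calc |x| ^ 2 * |3 * hh (zz l x t) + hh' (zz l x t)| ≤ 1 * (4 * Λ) :=
              mul_le_mul (pw 2) this (abs_nonneg _) zero_le_one
          _ = 4 * Λ := one_mul _
      have g4 : |axt l x t| ≤ Λ := by
        unfold axt
        rw [abs_mul, abs_mul, abs_pow]
        calc |l| * |x| ^ 3 * |hh' (zz l x t)| ≤ 1 * 1 * Λ :=
              mul_le_mul (mul_le_mul ll (pw 3) (by positivity) zero_le_one) (b4 _)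
                (abs_nonneg _) (by norm_num)
          _ = Λ := by ring
      have g5 : |att l x t| ≤ Λ := by
        unfold att
        rw [abs_mul, abs_mul, abs_pow, abs_pow]
        have : |l| ^ 2 ≤ 1 := pow_le_one₀ (abs_nonneg _) ll
        calc |l| ^ 2 * |x| ^ 4 * |ph' (zz l x t)| ≤ 1 * 1 * Λ :=
              mul_le_mul (mul_le_mul this (pw 4) (by positivity) zero_le_one) (b5 _)
                (abs_nonneg _) (by norm_num)
          _ = Λ := by ring
      have mm : ∀ a b A B : ℝ, |a| ≤ A → |b| ≤ B → |a * b| ≤ A * B := by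
        intro a b A B ha hb
        rw [abs_mul]
        exact mul_le_mul ha hb (abs_nonneg _) ((abs_nonneg _).trans ha)
      have k1 : 0 ≤ B1 * Λ := by positivity
      have k2 : 0 ≤ B2 * Λ := by positivity
      refine ⟨?_, ?_, ?_, ?_, ?_, ?_⟩
      · unfold A0
        have := mm _ _ _ _ f0 g0
        nlinarith
      · unfold Ax
        have u1 := mm _ _ _ _ f1 g0
        have u2 := mm _ _ _ _ f0 g1
        have u3 := abs_add_le (deriv ch x * a0 l x t) (ch x * ax l x t)
        nlinarith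
      · unfold At
        have := mm _ _ _ _ f0 g2
        nlinarith
      · unfold Axx
        have u1 := mm _ _ _ _ f2 g0
        have u2 := mm _ _ _ _ f1 g1
        have u3 := mm _ _ _ _ f0 g3
        have u4 := abs_add_le (deriv (deriv ch) x * a0 l x t + 2 * deriv ch x * ax l x t)
          (ch x * axx l x t)
        have u5 := abs_add_le (deriv (deriv ch) x * a0 l x t) (2 * deriv ch x * ax l x t)
        have u6 : |2 * deriv ch x * ax l x t| = 2 * |deriv ch x * ax l x t| := by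
          rw [mul_assoc, abs_mul, abs_of_pos (by norm_num : (0 : ℝ) < 2)]
        nlinarith
      · unfold Axt
        have u1 := mm _ _ _ _ f1 g2
        have u2 := mm _ _ _ _ f0 g4
        have u3 := abs_add_le (deriv ch x * at' l x t) (ch x * axt l x t)
        nlinarith
      · unfold Att
        have := mm _ _ _ _ f0 g5
        nlinarith

end Pool.Agent.Helper51.PL
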