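import Pool.Agent.Helper51.PL.G

set_option autoImplicit false

open MeasureTheory Set Filter Topology
open Pool.Agent.Helper82.PL

namespace Pool.Agent.Helper51.PL

lemma strip_sub (ρ a b : ℝ) (ha : |a| < ρ) (hb : |b| < ρ) : uIcc a b ⊆ {y | |y| < ρ} := by
  intro y hy
  rw [mem_uIcc] at hy
  rw [abs_lt] at ha hb
  show |y| < ρ
  rw [abs_lt]
  rcases hy with h | h
  · constructor <;> linarith
  · constructor <;> linarith

lemma strip_int (l ρ C : ℝ) (hρ : 0 < ρ) (k : ℝ → ℝ → ℝ)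
    (hk : ContinuousOn (fun q : ℝ × ℝ => k q.1 q.2) {q | q.1 ≠ 0 ∧ |q.1| < ρ})
    (hb : ∀ x z : ℝ, |x| < ρ → |k x z| ≤ C * x ^ 2) (t a b : ℝ) (ha : |a| < ρ) (hb' : |b| < ρ) :
    IntervalIntegrable (fun y => k y (zz l y t)) volume a b := by
  refine ContinuousOn.intervalIntegrable fun y hy => ?_
  have h1 := cont_ext l ρ C hρ k hk hb y t (strip_sub ρ a b ha hb' hy)
  have h2 : ContinuousAt (fun y : ℝ => (y, t)) y := by fun_prop
  exact (ContinuousAt.comp_of_eq h1 h2 rfl).continuousWithinAt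

/-- continuity of the integral in both variables -/
lemma int_cont (l ρ C : ℝ) (hρ : 0 < ρ) (k : ℝ → ℝ → ℝ)
    (hk : ContinuousOn (fun q : ℝ × ℝ => k q.1 q.2) {q | q.1 ≠ 0 ∧ |q.1| < ρ})
    (hb : ∀ x z : ℝ, |x| < ρ → |k x z| ≤ C * x ^ 2) (x t : ℝ) (hx : |x| < ρ) :
    ContinuousAt (fun q : ℝ × ℝ => ∫ y in (0 : ℝ)..q.1, k y (zz l y q.2)) (x, t) := by
  have z0 : |(0 : ℝ)| < ρ := by simpa using hρ
  have hC0 : 0 ≤ C := by
    have h1 : |ρ / 2| < ρ := by rw [abs_of_pos (by linarith)]; linarith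
    have h2 := (abs_nonneg _).trans (hb (ρ / 2) 0 h1)
    by_contra h3
    rw [not_le] at h3
    have : C * (ρ / 2) ^ 2 < 0 := mul_neg_of_neg_of_pos h3 (by positivity)
    linarith
  have ha : ContinuousAt (fun q : ℝ × ℝ => ∫ y in (0 : ℝ)..x, k y (zz l y q.2)) (x, t) := by
    have h1 : ContinuousAt (fun s : ℝ => ∫ y in (0 : ℝ)..x, k y (zz l y s)) t := by
      refine intervalIntegral.continuousAt_of_dominated_interval (bound := fun y => C * y ^ 2)
        ?_ ?_ ?_ ?_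
      · filter_upwards with s
        exact (strip_int l ρ C hρ k hk hb s 0 x z0 hx).aestronglyMeasurable_restrict_uIoc
      · filter_upwards with s
        filter_upwards with y hy
        exact hb _ _ (strip_sub ρ 0 x z0 hx (uIoc_subset_uIcc hy))
      · exact (by fun_prop : Continuous fun y : ℝ => C * y ^ 2).intervalIntegrable _ _
      · filter_upwards with y hy
        have h2 := cont_ext l ρ C hρ k hk hb y t (strip_sub ρ 0 x z0 hx (uIoc_subset_uIcc hy))
        have h3 : ContinuousAt (fun s : ℝ => (y, s)) t := by fun_prop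
        exact ContinuousAt.comp_of_eq (f := fun s : ℝ => (y, s))
          (g := fun q : ℝ × ℝ => k q.1 (zz l q.1 q.2)) h2 h3 rfl
    exact ContinuousAt.comp_of_eq h1 continuous_snd.continuousAt rfl
  have hb2 : Tendsto (fun q : ℝ × ℝ => ∫ y in x..q.1, k y (zz l y q.2)) (𝓝 (x, t)) (𝓝 0) := by
    have h2 : Tendsto (fun q : ℝ × ℝ => C * ρ ^ 2 * |q.1 - x|) (𝓝 (x, t)) (𝓝 0) := by
      have h3 : Continuous fun q : ℝ × ℝ => C * ρ ^ 2 * |q.1 - x| := by fun_prop
      have h4 := h3.tendsto (x, t)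
      simpa using h4
    have h4 : ∀ᶠ q : ℝ × ℝ in 𝓝 (x, t), |q.1| < ρ := by
      have h5 : Continuous fun q : ℝ × ℝ => |q.1| := by fun_prop
      have h6 := h5.tendsto (x, t)
      exact h6.eventually (gt_mem_nhds hx)
    refine squeeze_zero_norm' ?_ h2
    filter_upwards [h4] with q hq
    refine intervalIntegral.norm_integral_le_of_norm_le_const fun y hy => ?_
    have h5 : |y| < ρ := strip_sub ρ x q.1 hx hq (uIoc_subset_uIcc hy)
    refine (hb _ _ h5).trans ?_
    refine mul_le_mul_of_nonneg_left ?_ hC0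
    rw [← sq_abs y]
    exact pow_le_pow_left₀ (abs_nonneg _) h5.le 2
  have h4 : ∀ᶠ q : ℝ × ℝ in 𝓝 (x, t), |q.1| < ρ := by
    have h5 : Continuous fun q : ℝ × ℝ => |q.1| := by fun_prop
    have h6 := h5.tendsto (x, t)
    exact h6.eventually (gt_mem_nhds hx)
  have hsum : (fun q : ℝ × ℝ => ∫ y in (0 : ℝ)..q.1, k y (zz l y q.2)) =ᶠ[𝓝 (x, t)]
      fun q : ℝ × ℝ => (∫ y in x..q.1, k y (zz l y q.2)) +
        ∫ y in (0 : ℝ)..x, k y (zz l y q.2) := by
    filter_upwards [h4] with q hq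
    rw [add_comm]
    exact (intervalIntegral.integral_add_adjacent_intervals
      (strip_int l ρ C hρ k hk hb _ _ _ z0 hx)
      (strip_int l ρ C hρ k hk hb _ _ _ hx hq)).symm
  have hfin : ContinuousAt (fun q : ℝ × ℝ => (∫ y in x..q.1, k y (zz l y q.2)) +
        ∫ y in (0 : ℝ)..x, k y (zz l y q.2)) (x, t) := by
    refine ContinuousAt.add ?_ ha
    unfold ContinuousAt
    simp only [intervalIntegral.integral_same]
    exact hb2
  exact hfin.congr hsum.symm

theorem jetS_ok (_hP : stmtProf) (hR : stmtR) (hRd : stmtRd) (hG : stmtG) : stmtJetS := by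
  intro l hl hl1
  obtain ⟨C, hC1, hC⟩ := hR
  obtain ⟨hd, hcR, hcR1, hcR2, hcRz, R1z, hcR1z, ⟨C', hC'⟩, hd1⟩ := hRd l hl hl1
  have hρ : (0 : ℝ) < 1 / 3 := by norm_num
  have z0 : |(0 : ℝ)| < 1 / 3 := by norm_num
  -- powers
  have cp : ∀ n : ℕ, ContinuousOn (fun q : ℝ × ℝ => q.1 ^ n)
      {q | q.1 ≠ 0 ∧ |q.1| < 1 / 3} := fun n =>
    (by fun_prop : Continuous fun q : ℝ × ℝ => q.1 ^ n).continuousOn
  have pw : ∀ (n : ℕ) (x : ℝ), |x| < 1 / 3 → |x| ^ (n + 2) ≤ x ^ 2 := by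
    intro n x hx
    have h1 : |x| ^ n ≤ 1 := pow_le_one₀ (abs_nonneg _) (by linarith)
    rw [pow_add, sq_abs]
    calc |x| ^ n * x ^ 2 ≤ 1 * x ^ 2 := mul_le_mul_of_nonneg_right h1 (sq_nonneg x)
      _ = x ^ 2 := one_mul _
  -- a bounded factor
  have bd : ∀ (n : ℕ) (k : ℝ → ℝ → ℝ) (B : ℝ),
      (∀ x z : ℝ, x ≠ 0 → |x| < 1 / 3 → |k x z| ≤ B) →
      ∀ x z : ℝ, |x| < 1 / 3 → |x ^ (n + 2) * k x z| ≤ B * x ^ 2 := by
    intro n k B hk x z hx
    by_cases h0 : x = 0
    · subst h0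
      simp
    · have h1 := hk x z h0 hx
      rw [abs_mul, abs_pow, mul_comm]
      exact mul_le_mul h1 (pw n x hx) (by positivity) ((abs_nonneg _).trans h1)
  have bd' : ∀ (n : ℕ) (k : ℝ → ℝ → ℝ) (B : ℝ),
      (∀ x z : ℝ, x ≠ 0 → |x| < 1 / 3 → |x| * |k x z| ≤ B) →
      ∀ x z : ℝ, |x| < 1 / 3 → |x ^ (n + 3) * k x z| ≤ B * x ^ 2 := by
    intro n k B hk x z hx
    have h1 := bd n (fun x z => x * k x z) B (fun x z h0 hx => by
      rw [abs_mul]
      exact hk x z h0 hx) x z hx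
    have h2 : x ^ (n + 3) * k x z = x ^ (n + 2) * (x * k x z) := by ring
    rw [h2]
    exact h1
  have rR : ∀ x z : ℝ, x ≠ 0 → |x| < 1 / 3 → |Rr l x z| ≤ C := fun x z h0 hx => by
    obtain ⟨_, h2, h3, _⟩ := hC l hl hl1 x z h0 hx.le
    rw [abs_of_pos h2]
    exact h3
  have rR1 : ∀ x z : ℝ, x ≠ 0 → |x| < 1 / 3 → |R1 l x z| ≤ 28 * C := fun x z h0 hx => by
    obtain ⟨_, h2, h3, h4, h5, _⟩ := hC l hl hl1 x z h0 hx.le
    rw [abs_of_nonneg (by linarith)]
    linarith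
  have rR2 : ∀ x z : ℝ, x ≠ 0 → |x| < 1 / 3 → |R2 l x z| ≤ 1200 * C := fun x z h0 hx => by
    obtain ⟨_, h2, h3, h4, h5, h6, _⟩ := hC l hl hl1 x z h0 hx.le
    linarith
  have rRz : ∀ x z : ℝ, x ≠ 0 → |x| < 1 / 3 → |x| * |Rz l x z| ≤ C / l := fun x z h0 hx => by
    obtain ⟨_, h2, h3, h4, h5, h6, h7, h8, _⟩ := hC l hl hl1 x z h0 hx.le
    rw [le_div_iff₀ hl]
    linarith
  have hCl : 0 < C / l := by positivity
  -- kernels
  have kc0 : ContinuousOn (fun q : ℝ × ℝ => q.1 ^ 7 * Rr l q.1 q.2)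
      {q | q.1 ≠ 0 ∧ |q.1| < 1 / 3} := (cp 7).mul hcR
  have kc1 : ContinuousOn (fun q : ℝ × ℝ => q.1 ^ 7 * (R1 l q.1 q.2 - Rr l q.1 q.2))
      {q | q.1 ≠ 0 ∧ |q.1| < 1 / 3} := (cp 7).mul (hcR1.sub hcR)
  have kcz : ContinuousOn (fun q : ℝ × ℝ => q.1 ^ 7 * Rz l q.1 q.2)
      {q | q.1 ≠ 0 ∧ |q.1| < 1 / 3} := (cp 7).mul hcRz
  have kd1 : ContinuousOn (fun q : ℝ × ℝ => q.1 ^ 7 * (R2 l q.1 q.2 - R1 l q.1 q.2))
      {q | q.1 ≠ 0 ∧ |q.1| < 1 / 3} := (cp 7).mul (hcR2.sub hcR1)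
  have kdz : ContinuousOn (fun q : ℝ × ℝ => q.1 ^ 7 * R1z q.1 q.2)
      {q | q.1 ≠ 0 ∧ |q.1| < 1 / 3} := (cp 7).mul hcR1z
  -- derivative of s0
  have D0 : ∀ x t : ℝ, |x| < 1 / 3 → HasFDerivAt (fun q : ℝ × ℝ => s0 l q.1 q.2)
      (sx l x t • ContinuousLinearMap.fst ℝ ℝ ℝ + st l x t • ContinuousLinearMap.snd ℝ ℝ ℝ)
      (x, t) := by
    intro x t hx
    have h1 := hG l (1 / 3) (29 * C + C / l) hl hρ (fun x z => x ^ 7 * Rr l x z)
      (fun x z => x ^ 7 * (R1 l x z - Rr l x z)) (fun x z => x ^ 7 * Rz l x z)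
      (fun x z h0 hx => by
        have h2 := hd x z h0 hx
        refine h2.congr_fderiv ?_
        congr 2
        field_simp) kc1 kcz
      (fun x z hx => by
        have x2 := sq_nonneg x
        refine ⟨?_, ?_, ?_⟩
        · have := bd 5 (fun x z => Rr l x z) C rR x z hx
          nlinarith [mul_nonneg hCl.le x2, mul_nonneg (by linarith : (0 : ℝ) ≤ C) x2]
        · have := bd 5 (fun x z => R1 l x z - Rr l x z) (29 * C) (fun x z h0 hx => by
            have := abs_sub (R1 l x z) (Rr l x z)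
            have := rR x z h0 hx
            have := rR1 x z h0 hx
            linarith) x z hx
          nlinarith [mul_nonneg hCl.le x2, mul_nonneg (by linarith : (0 : ℝ) ≤ C) x2]
        · have := bd' 4 (fun x z => Rz l x z) (C / l) rRz x z hx
          nlinarith [mul_nonneg hCl.le x2, mul_nonneg (by linarith : (0 : ℝ) ≤ C) x2]) x t hx
    refine h1.congr_fderiv ?_
    congr 1
    congr 1
    unfold st m1
    have h3 : (∫ y in (0 : ℝ)..x, (y ^ 7 * Rr l y (zz l y t) +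
        y ^ 7 * (R1 l y (zz l y t) - Rr l y (zz l y t)))) =
        ∫ y in (0 : ℝ)..x, y ^ 7 * R1 l y (zz l y t) := by
      congr 1
      funext y
      ring
    rw [h3]
    ring
  -- derivative of m1
  have hC'0 : 0 ≤ C' := by
    have := hC' (1 / 6) 0 (by norm_num) (by rw [abs_of_pos (by norm_num)]; norm_num)
    exact le_trans (by positivity) this
  have D1 : ∀ x t : ℝ, |x| < 1 / 3 → HasFDerivAt (fun q : ℝ × ℝ => m1 l q.1 q.2)
      ((x ^ 7 * R1 l x (zz l x t)) • ContinuousLinearMap.fst ℝ ℝ ℝ +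
        (l * (x ^ 8 * R1 l x (zz l x t) - m2 l x t)) • ContinuousLinearMap.snd ℝ ℝ ℝ)
      (x, t) := by
    intro x t hx
    have h1 := hG l (1 / 3) (1228 * C + C') hl hρ (fun x z => x ^ 7 * R1 l x z)
      (fun x z => x ^ 7 * (R2 l x z - R1 l x z)) (fun x z => x ^ 7 * R1z x z)
      (fun x z h0 hx => by
        have h2 := hd1 x z h0 hx
        refine h2.congr_fderiv ?_
        congr 2
        field_simp) kd1 kdz
      (fun x z hx => by
        have x2 := sq_nonneg x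
        refine ⟨?_, ?_, ?_⟩
        · have := bd 5 (fun x z => R1 l x z) (28 * C) rR1 x z hx
          nlinarith [mul_nonneg hC'0 x2, mul_nonneg (by linarith : (0 : ℝ) ≤ C) x2]
        · have := bd 5 (fun x z => R2 l x z - R1 l x z) (1228 * C) (fun x z h0 hx => by
            have := abs_sub (R2 l x z) (R1 l x z)
            have := rR2 x z h0 hx
            have := rR1 x z h0 hx
            linarith) x z hx
          nlinarith [mul_nonneg hC'0 x2, mul_nonneg (by linarith : (0 : ℝ) ≤ C) x2]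
        · have := bd' 4 R1z C' hC' x z hx
          nlinarith [mul_nonneg hC'0 x2, mul_nonneg (by linarith : (0 : ℝ) ≤ C) x2]) x t hx
    refine h1.congr_fderiv ?_
    congr 1
    congr 1
    unfold m2
    have h3 : (∫ y in (0 : ℝ)..x, (y ^ 7 * R1 l y (zz l y t) +
        y ^ 7 * (R2 l y (zz l y t) - R1 l y (zz l y t)))) =
        ∫ y in (0 : ℝ)..x, y ^ 7 * R2 l y (zz l y t) := by
      congr 1
      funext y
      ring
    rw [h3]
    ring
  -- derivative of sx
  have Dx : ∀ x t : ℝ, |x| < 1 / 3 → HasFDerivAt (fun q : ℝ × ℝ => sx l q.1 q.2)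
      (sxx l x t • ContinuousLinearMap.fst ℝ ℝ ℝ + sxt l x t • ContinuousLinearMap.snd ℝ ℝ ℝ)
      (x, t) := by
    intro x t hx
    by_cases h0 : x = 0
    · subst h0
      have e1 : sxx l 0 t • ContinuousLinearMap.fst ℝ ℝ ℝ +
          sxt l 0 t • ContinuousLinearMap.snd ℝ ℝ ℝ = 0 := by
        unfold sxx sxt
        simp
      rw [e1]
      rw [hasFDerivAt_iff_isLittleO_nhds_zero, Asymptotics.isLittleO_iff]
      intro c hc
      have h3 : ∀ᶠ h : ℝ × ℝ in 𝓝 0, ‖h‖ < min (1 / 3) (c / C) := by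
        have h6 := (continuous_norm (E := ℝ × ℝ)).tendsto 0
        rw [norm_zero] at h6
        exact h6.eventually (gt_mem_nhds (lt_min (by norm_num) (by positivity)))
      filter_upwards [h3] with h hh
      have h4 : |h.1| ≤ ‖h‖ := norm_fst_le h
      have h6 : ‖h‖ < 1 / 3 := lt_of_lt_of_le hh (min_le_left _ _)
      have h7 : ‖h‖ < c / C := lt_of_lt_of_le hh (min_le_right _ _)
      have h8 : |h.1| * C ≤ c := by
        rw [lt_div_iff₀ (by positivity)] at h7
        nlinarith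
      have e2 : sx l 0 t = 0 := by
        unfold sx
        simp
      simp only [Prod.fst_add, Prod.snd_add, zero_add, sub_zero,
        ContinuousLinearMap.zero_apply, e2]
      have h9 := bd 5 (fun x z => Rr l x z) C rR h.1 (zz l h.1 (t + h.2)) (by linarith)
      unfold sx
      rw [Real.norm_eq_abs]
      refine h9.trans ?_
      rw [← sq_abs]
      calc C * |h.1| ^ 2 = (|h.1| * C) * |h.1| := by ring
        _ ≤ c * ‖h‖ := mul_le_mul h8 h4 (abs_nonneg _) hc.le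
    · have h1 : HasFDerivAt (fun q : ℝ × ℝ => (q.1, zz l q.1 q.2))
          ((ContinuousLinearMap.fst ℝ ℝ ℝ).prod
            (x⁻¹ • ContinuousLinearMap.fst ℝ ℝ ℝ + l • ContinuousLinearMap.snd ℝ ℝ ℝ))
          (x, t) := by
        refine HasFDerivAt.prodMk hasFDerivAt_fst ?_
        unfold zz
        have a1 : HasFDerivAt (fun q : ℝ × ℝ => Real.log q.1)
            (x⁻¹ • ContinuousLinearMap.fst ℝ ℝ ℝ) (x, t) :=
          HasDerivAt.comp_hasFDerivAt_of_eq (x, t) (Real.hasDerivAt_log h0) hasFDerivAt_fst rfl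
        have a2 : HasFDerivAt (fun q : ℝ × ℝ => l * q.2)
            (l • ContinuousLinearMap.snd ℝ ℝ ℝ) (x, t) := hasFDerivAt_snd.const_mul l
        exact a1.add a2
      have h2 := hd x (zz l x t) h0 hx
      have h3 := HasFDerivAt.comp (f := fun q : ℝ × ℝ => (q.1, zz l q.1 q.2))
        (g := fun q : ℝ × ℝ => q.1 ^ 7 * Rr l q.1 q.2) (x, t) h2 h1
      refine h3.congr_fderiv ?_
      unfold sxx sxt
      ext v
      · simp
        field_simp
        try ring
      · simp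
        try ring
  refine ⟨?_, ?_, ?_, ?_, ?_, ?_⟩
  · rintro ⟨x, t⟩ hx
    exact D0 x t hx
  · rintro ⟨x, t⟩ hx
    exact Dx x t hx
  · rintro ⟨x, t⟩ hx
    have hx' : |x| < 1 / 3 := hx
    have h1 : (fun q : ℝ × ℝ => st l q.1 q.2) =
        fun q : ℝ × ℝ => l * (q.1 * sx l q.1 q.2 - m1 l q.1 q.2) := by
      funext q
      unfold st sx
      ring
    rw [h1]
    have h2 : HasFDerivAt (fun q : ℝ × ℝ => q.1) (ContinuousLinearMap.fst ℝ ℝ ℝ) (x, t) :=
      hasFDerivAt_fst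
    have h3 := ((h2.mul (Dx x t hx')).sub (D1 x t hx')).const_mul l
    refine h3.congr_fderiv ?_
    unfold sxt stt sxx sx
    ext v
    · simp
      ring
    · simp
      ring
  · rintro ⟨x, t⟩ hx
    have hx' : |x| < 1 / 3 := hx
    have h1 := cont_ext l (1 / 3) (29 * C + C / l) hρ
      (fun x z => x ^ 6 * (R1 l x z - Rr l x z + Rz l x z))
      ((cp 6).mul ((hcR1.sub hcR).add hcRz))
      (fun x z hx => by
        have u1 := bd 4 (fun x z => R1 l x z - Rr l x z) (29 * C) (fun x z h0 hx => by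
            have := abs_sub (R1 l x z) (Rr l x z)
            have := rR x z h0 hx
            have := rR1 x z h0 hx
            linarith) x z hx
        have u2 := bd' 3 (fun x z => Rz l x z) (C / l) rRz x z hx
        have u3 := abs_add_le (x ^ 6 * (R1 l x z - Rr l x z)) (x ^ 6 * Rz l x z)
        have u4 : x ^ 6 * (R1 l x z - Rr l x z + Rz l x z) =
          x ^ 6 * (R1 l x z - Rr l x z) + x ^ 6 * Rz l x z := by ring
        rw [u4]
        linarith) x t hx'
    exact h1.continuousWithinAt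
  · rintro ⟨x, t⟩ hx
    have hx' : |x| < 1 / 3 := hx
    have h1 := (cont_ext l (1 / 3) (C / l) hρ
      (fun x z => x ^ 7 * Rz l x z) kcz (bd' 4 (fun x z => Rz l x z) (C / l) rRz) x t
      hx').const_mul l
    have h2 : (fun q : ℝ × ℝ => sxt l q.1 q.2) =
        fun q : ℝ × ℝ => l * (q.1 ^ 7 * Rz l q.1 (zz l q.1 q.2)) := by
      funext q
      unfold sxt
      ring
    rw [h2]
    exact h1.continuousWithinAt
  · rintro ⟨x, t⟩ hx
    have hx' : |x| < 1 / 3 := hx
    have h1 := cont_ext l (1 / 3) (28 * C + C / l) hρ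
      (fun x z => x ^ 8 * (Rz l x z - R1 l x z))
      ((cp 8).mul (hcRz.sub hcR1))
      (fun x z hx => by
        have u1 := bd 6 (fun x z => R1 l x z) (28 * C) rR1 x z hx
        have u2 := bd' 5 (fun x z => Rz l x z) (C / l) rRz x z hx
        have u3 := abs_sub (x ^ 8 * Rz l x z) (x ^ 8 * R1 l x z)
        have u4 : x ^ 8 * (Rz l x z - R1 l x z) =
          x ^ 8 * Rz l x z - x ^ 8 * R1 l x z := by ring
        rw [u4]
        linarith) x t hx'
    have h2 := int_cont l (1 / 3) (1200 * C) hρ (fun x z => x ^ 7 * R2 l x z)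
      ((cp 7).mul hcR2) (bd 5 (fun x z => R2 l x z) (1200 * C) rR2) x t hx'
    have h3 := (h1.add h2).const_mul (l ^ 2)
    exact h3.continuousWithinAt

lemma even_aux (f : ℝ → ℝ) (hf : ∀ y, f (-y) = -f y) (x : ℝ) :
    (∫ y in (0 : ℝ)..(-x), f y) = ∫ y in (0 : ℝ)..x, f y := by
  have h1 := intervalIntegral.integral_comp_neg (a := x) (b := 0) f
  rw [neg_zero] at h1
  rw [← h1, intervalIntegral.integral_symm]
  simp only [hf, intervalIntegral.integral_neg, neg_neg]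

lemma Mh_neg (l y z : ℝ) : Mh l (-y) z = Mh l y z := by
  unfold Mh
  ring

lemma Mx_neg (l y z : ℝ) : Mx l (-y) z = Mx l y z := by
  unfold Mx
  ring

lemma Mxx_neg (l y z : ℝ) : Mxx l (-y) z = Mxx l y z := by
  unfold Mxx
  ring

lemma Rr_neg (l y z : ℝ) : Rr l (-y) z = Rr l y z := by
  unfold Rr
  rw [Mh_neg]
  congr 2
  ring

lemma zz_neg (l y t : ℝ) : zz l (-y) t = zz l y t := by
  unfold zz
  rw [Real.log_neg_eq_log]

theorem evenS_ok : stmtEvenS := by
  intro l x t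
  refine ⟨?_, ?_, ?_⟩
  · unfold s0
    refine even_aux (fun y => y ^ 7 * Rr l y (zz l y t)) (fun y => ?_) x
    show (-y) ^ 7 * Rr l (-y) (zz l (-y) t) = -(y ^ 7 * Rr l y (zz l y t))
    rw [zz_neg, Rr_neg]
    ring
  · unfold m1
    refine even_aux (fun y => y ^ 7 * R1 l y (zz l y t)) (fun y => ?_) x
    show (-y) ^ 7 * R1 l (-y) (zz l (-y) t) = -(y ^ 7 * R1 l y (zz l y t))
    unfold R1
    rw [zz_neg, Rr_neg, Mx_neg, Mh_neg]
    ring
  · unfold m2
    refine even_aux (fun y => y ^ 7 * R2 l y (zz l y t)) (fun y => ?_) x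
    show (-y) ^ 7 * R2 l (-y) (zz l (-y) t) = -(y ^ 7 * R2 l y (zz l y t))
    unfold R2
    rw [zz_neg, Rr_neg, Mx_neg, Mh_neg, Mxx_neg]
    ring

end Pool.Agent.Helper51.PL
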