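import Pool.Agent.Helper82.PL.Defs

set_option autoImplicit false

open MeasureTheory Set Filter Topology
open Pool.Agent.Helper82.PL

namespace Pool.Agent.Helper51.PL

lemma sg_nonneg (z : ℝ) : 0 ≤ sg z := le_max_left _ _

lemma sg_le (z : ℝ) : sg z ≤ 3 / 2 := by
  unfold sg
  refine max_le (by norm_num) ?_
  have := Real.sin_le_one z
  linarith

lemma sin_le_sg (z : ℝ) : Real.sin z ≤ sg z - 1 / 2 := by
  have := le_max_right (0 : ℝ) (Real.sin z + 1 / 2)
  unfold sg
  linarith

lemma sg_cont : Continuous sg := by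
  unfold sg
  fun_prop

lemma hh_cont : Continuous hh := by
  have := sg_cont
  unfold hh
  fun_prop

lemma hh'_cont : Continuous hh' := by
  have := sg_cont
  unfold hh'
  fun_prop

lemma hasDerivAt_sqmax (x : ℝ) : HasDerivAt (fun y : ℝ => (max 0 y) ^ 2) (2 * max 0 x) x := by
  rcases lt_trichotomy x 0 with h | h | h
  · have h1 : (fun y : ℝ => (max 0 y) ^ 2) =ᶠ[𝓝 x] fun _ => (0 : ℝ) := by
      filter_upwards [Iio_mem_nhds h] with y hy
      rw [max_eq_left (le_of_lt hy)]
      norm_num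
    rw [max_eq_left h.le, mul_zero]
    exact (hasDerivAt_const x (0 : ℝ)).congr_of_eventuallyEq h1
  · subst h
    rw [max_self, mul_zero]
    rw [hasDerivAt_iff_isLittleO_nhds_zero]
    have h2 : (fun h : ℝ => h ^ 2) =o[𝓝 0] fun h : ℝ => h := by
      simpa using (Asymptotics.isLittleO_pow_id (𝕜 := ℝ) (n := 2) (by norm_num))
    refine Asymptotics.IsBigO.trans_isLittleO ?_ h2
    refine Asymptotics.IsBigO.of_bound 1 (Filter.Eventually.of_forall fun h => ?_)
    simp only [zero_add, max_self, smul_zero, sub_zero, ne_eq, OfNat.ofNat_ne_zero,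
      not_false_eq_true, zero_pow, one_mul, Real.norm_eq_abs, mul_zero, smul_eq_mul]
    rcases le_total 0 h with h3 | h3
    · rw [max_eq_right h3]
    · rw [max_eq_left h3]
      simp
      positivity
  · have h1 : (fun y : ℝ => (max 0 y) ^ 2) =ᶠ[𝓝 x] fun y => y ^ 2 := by
      filter_upwards [Ioi_mem_nhds h] with y hy
      rw [max_eq_right (le_of_lt hy)]
    rw [max_eq_right h.le]
    have := (hasDerivAt_pow 2 x).congr_of_eventuallyEq h1
    simpa using this

lemma hh_deriv (z : ℝ) : HasDerivAt hh (hh' z) z := by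
  have h1 : HasDerivAt (fun z => Real.sin z + 1 / 2) (Real.cos z) z :=
    (Real.hasDerivAt_sin z).add_const _
  have h2 := (hasDerivAt_sqmax (Real.sin z + 1 / 2)).comp z h1
  exact h2

lemma hh_nonneg (z : ℝ) : 0 ≤ hh z := by
  unfold hh
  positivity

lemma hh_le (z : ℝ) : hh z ≤ 9 / 4 := by
  unfold hh
  nlinarith [sg_nonneg z, sg_le z]

lemma hh'_le (z : ℝ) : |hh' z| ≤ 2 * sg z := by
  unfold hh'
  rw [abs_mul, abs_of_nonneg (by have := sg_nonneg z; positivity)]
  have := Real.abs_cos_le_one z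
  nlinarith [sg_nonneg z, abs_nonneg (Real.cos z)]

lemma sg_per (z : ℝ) : sg (z + 2 * Real.pi) = sg z := by
  unfold sg
  rw [Real.sin_add_two_pi]

lemma hh_per (z : ℝ) : hh (z + 2 * Real.pi) = hh z := by
  unfold hh
  rw [sg_per]

lemma hh'_per (z : ℝ) : hh' (z + 2 * Real.pi) = hh' z := by
  unfold hh'
  rw [sg_per, Real.cos_add_two_pi]

lemma eh_cont : Continuous fun y : ℝ => Real.exp (4 * y) * hh y := by
  have := hh_cont
  fun_prop

lemma Ph_deriv (z : ℝ) : HasDerivAt Ph (ph z) z := by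
  have h1 : HasDerivAt (fun z : ℝ => ∫ y in (0 : ℝ)..z, Real.exp (4 * y) * hh y)
      (Real.exp (4 * z) * hh z) z :=
    intervalIntegral.integral_hasDerivAt_right (eh_cont.intervalIntegrable _ _)
      (eh_cont.stronglyMeasurableAtFilter _ _) eh_cont.continuousAt
  have h2 : HasDerivAt (fun z : ℝ => Real.exp (-(4 * z))) (Real.exp (-(4 * z)) * (-4)) z := by
    have h3 : HasDerivAt (fun z : ℝ => -(4 * z)) (-4) z := by
      have h0 := ((hasDerivAt_id z).const_mul (4 : ℝ)).neg
      rw [mul_one] at h0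
      exact h0
    exact h3.exp
  have h4 := h2.mul (h1.const_add Ci)
  have h5 : Real.exp (-(4 * z)) * (-4) * (Ci + ∫ y in (0 : ℝ)..z, Real.exp (4 * y) * hh y) +
      Real.exp (-(4 * z)) * (Real.exp (4 * z) * hh z) = ph z := by
    have h6 : Real.exp (-(4 * z)) * Real.exp (4 * z) = 1 := by
      rw [← Real.exp_add]
      simp
    unfold ph Ph
    linear_combination (hh z) * h6
  rw [← h5]
  exact h4

lemma Ph_cont : Continuous Ph :=
  continuous_iff_continuousAt.2 fun z => (Ph_deriv z).continuousAt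

lemma ph_cont : Continuous ph := by
  have h1 := Ph_cont
  have h2 := hh_cont
  unfold ph
  fun_prop

lemma ph_deriv (z : ℝ) : HasDerivAt ph (ph' z) z := by
  exact (hh_deriv z).sub ((Ph_deriv z).const_mul 4)

lemma ph'_cont : Continuous ph' := by
  have h1 := ph_cont
  have h2 := hh'_cont
  unfold ph'
  fun_prop

lemma nn_deriv (z : ℝ) : HasDerivAt nn (nn' z) z := by
  have h1 : HasDerivAt (fun z : ℝ => -(32 * Real.cos z)) (32 * Real.sin z) z := by
    have h0 := ((Real.hasDerivAt_cos z).const_mul (32 : ℝ)).neg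
    rw [show -(32 * -Real.sin z) = 32 * Real.sin z by ring] at h0
    exact h0
  have h2 := h1.exp
  unfold nn' nn
  rw [mul_comm]
  exact h2

lemma nn_cont : Continuous nn := by
  unfold nn
  fun_prop

lemma nn'_cont : Continuous nn' := by
  have := nn_cont
  unfold nn'
  fun_prop

lemma den_pos : 0 < Real.exp (8 * Real.pi) - 1 := by
  have : (1 : ℝ) < Real.exp (8 * Real.pi) := by
    rw [Real.one_lt_exp_iff]
    positivity
  linarith

lemma Ci_pos : 0 < Ci := by
  unfold Ci
  refine div_pos ?_ den_pos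
  refine intervalIntegral.integral_pos (by positivity) eh_cont.continuousOn ?_ ?_
  · intro x _
    have := hh_nonneg x
    positivity
  · refine ⟨0, ⟨le_rfl, by positivity⟩, ?_⟩
    have : hh 0 = 1 / 4 := by
      unfold hh sg
      norm_num
    rw [this]
    positivity

lemma Ph_per (z : ℝ) : Ph (z + 2 * Real.pi) = Ph z := by
  have h1 : (∫ y in (0 : ℝ)..(z + 2 * Real.pi), Real.exp (4 * y) * hh y) =
      (∫ y in (0 : ℝ)..(2 * Real.pi), Real.exp (4 * y) * hh y) +
      ∫ y in (2 * Real.pi)..(z + 2 * Real.pi), Real.exp (4 * y) * hh y :=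
    (intervalIntegral.integral_add_adjacent_intervals (eh_cont.intervalIntegrable _ _)
      (eh_cont.intervalIntegrable _ _)).symm
  have h2 : (∫ y in (2 * Real.pi)..(z + 2 * Real.pi), Real.exp (4 * y) * hh y) =
      Real.exp (8 * Real.pi) * ∫ y in (0 : ℝ)..z, Real.exp (4 * y) * hh y := by
    have h3 := intervalIntegral.integral_comp_add_right (a := (0 : ℝ)) (b := z)
      (fun y => Real.exp (4 * y) * hh y) (2 * Real.pi)
    rw [zero_add] at h3
    rw [← h3, ← intervalIntegral.integral_const_mul]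
    refine intervalIntegral.integral_congr fun y _ => ?_
    show Real.exp (4 * (y + 2 * Real.pi)) * hh (y + 2 * Real.pi) =
      Real.exp (8 * Real.pi) * (Real.exp (4 * y) * hh y)
    rw [hh_per, mul_add, Real.exp_add, show (4 : ℝ) * (2 * Real.pi) = 8 * Real.pi by ring]
    ring
  have h4 : (∫ y in (0 : ℝ)..(2 * Real.pi), Real.exp (4 * y) * hh y) =
      Ci * (Real.exp (8 * Real.pi) - 1) := by
    unfold Ci
    rw [div_mul_cancel₀ _ den_pos.ne']
  unfold Ph
  rw [h1, h2, h4]
  have h5 : Real.exp (-(4 * (z + 2 * Real.pi))) * Real.exp (8 * Real.pi) =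
      Real.exp (-(4 * z)) := by
    rw [← Real.exp_add]
    congr 1
    ring
  rw [← h5]
  ring

lemma Ph_pos_of_nonneg {z : ℝ} (hz : 0 ≤ z) : 0 < Ph z := by
  unfold Ph
  refine mul_pos (Real.exp_pos _) ?_
  have h1 : 0 ≤ ∫ y in (0 : ℝ)..z, Real.exp (4 * y) * hh y := by
    refine intervalIntegral.integral_nonneg hz fun x _ => ?_
    have := hh_nonneg x
    positivity
  have := Ci_pos
  linarith

lemma Ph_periodic : Function.Periodic Ph (2 * Real.pi) := Ph_per

lemma Ph_pos (z : ℝ) : 0 < Ph z := by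
  obtain ⟨n, hn⟩ := exists_nat_ge (-z / (2 * Real.pi))
  have h1 : Ph (z + n * (2 * Real.pi)) = Ph z := Ph_periodic.nat_mul n z
  rw [← h1]
  refine Ph_pos_of_nonneg ?_
  have h2 : 0 < 2 * Real.pi := by positivity
  rw [div_le_iff₀ h2] at hn
  linarith

lemma Ph_range_compact : IsCompact (range Ph) :=
  Ph_periodic.compact_of_continuous (by positivity) Ph_cont

lemma Ph_lower : ∃ m : ℝ, 0 < m ∧ ∀ z, m ≤ Ph z := by
  obtain ⟨m, hm⟩ := Ph_range_compact.exists_isLeast (range_nonempty _)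
  obtain ⟨z0, hz0⟩ := hm.1
  refine ⟨m, ?_, fun z => hm.2 (mem_range_self z)⟩
  rw [← hz0]
  exact Ph_pos z0

lemma Ph_upper : ∃ M : ℝ, 0 < M ∧ ∀ z, Ph z ≤ M := by
  obtain ⟨m, hm⟩ := Ph_range_compact.exists_isGreatest (range_nonempty _)
  obtain ⟨z0, hz0⟩ := hm.1
  refine ⟨m, ?_, fun z => hm.2 (mem_range_self z)⟩
  rw [← hz0]
  exact Ph_pos z0

lemma nn_pos (z : ℝ) : 0 < nn z := Real.exp_pos _

lemma nn_le (z : ℝ) : nn z ≤ Real.exp 32 := by
  unfold nn
  refine Real.exp_le_exp.2 ?_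
  have := Real.neg_one_le_cos z
  linarith

lemma nn_ge (z : ℝ) : Real.exp (-32) ≤ nn z := by
  unfold nn
  refine Real.exp_le_exp.2 ?_
  have := Real.cos_le_one z
  linarith

theorem prof_ok : stmtProf := by
  refine ⟨hh_deriv, hh'_cont, Ph_deriv, ph_deriv, ph'_cont, nn_deriv, nn'_cont, Ph_per, Ph_pos,
    ?_⟩
  obtain ⟨m, hm0, hm⟩ := Ph_lower
  obtain ⟨M, hM0, hM⟩ := Ph_upper
  have he : (0 : ℝ) < Real.exp 32 := Real.exp_pos _
  refine ⟨16 + 16 * M + 33 * Real.exp 32 + 1 / (8 * m ^ 2), ?_, fun z => ?_⟩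
  · have : 0 < 1 / (8 * m ^ 2) := by positivity
    linarith
  have hq : 0 < 1 / (8 * m ^ 2) := by positivity
  set Λ : ℝ := 16 + 16 * M + 33 * Real.exp 32 + 1 / (8 * m ^ 2) with hΛ
  have hΛ0 : 0 < Λ := by positivity
  have a1 : |hh z| ≤ 9 / 4 := by
    rw [abs_of_nonneg (hh_nonneg z)]
    exact hh_le z
  have a2 : |hh' z| ≤ 3 := by
    have := hh'_le z
    have := sg_le z
    linarith
  have a3 : |Ph z| ≤ M := by
    rw [abs_of_pos (Ph_pos z)]
    exact hM z
  have a4 : |ph z| ≤ 9 / 4 + 4 * M := by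
    unfold ph
    have h1 := abs_sub (hh z) (4 * Ph z)
    rw [abs_mul, abs_of_pos (by norm_num : (0 : ℝ) < 4)] at h1
    linarith
  have a5 : |ph' z| ≤ 12 + 16 * M := by
    unfold ph'
    have h1 := abs_sub (hh' z) (4 * ph z)
    rw [abs_mul, abs_of_pos (by norm_num : (0 : ℝ) < 4)] at h1
    linarith
  have a6 : |nn z| ≤ Real.exp 32 := by
    rw [abs_of_pos (nn_pos z)]
    exact nn_le z
  have a7 : |nn' z| ≤ 32 * Real.exp 32 := by
    unfold nn'
    rw [abs_mul, abs_mul, abs_of_pos (by norm_num : (0 : ℝ) < 32)]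
    have h1 := Real.abs_sin_le_one z
    have h2 : |nn z| ≤ Real.exp 32 := a6
    nlinarith [abs_nonneg (Real.sin z), abs_nonneg (nn z)]
  refine ⟨by linarith, by linarith, by linarith, by linarith, by linarith, by linarith,
    by linarith, ?_, ?_⟩
  · refine le_trans ?_ (nn_ge z)
    rw [Real.exp_neg]
    exact inv_anti₀ he (by linarith)
  · have h1 : 8 * m ^ 2 ≤ hh z ^ 2 + ph z ^ 2 := by
      have h2 := hm z
      have h3 : m ^ 2 ≤ Ph z ^ 2 := pow_le_pow_left₀ hm0.le h2 2
      unfold ph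
      nlinarith [sq_nonneg (hh z - 2 * Ph z)]
    refine le_trans ?_ h1
    have h4 : (8 * m ^ 2)⁻¹ ≤ Λ := by
      rw [← one_div]
      linarith
    exact inv_le_of_inv_le₀ (by positivity) h4

theorem psi_ok (_h : stmtProf) : stmtPsi := by
  intro C3
  have he : (0 : ℝ) < Real.exp 32 := Real.exp_pos _
  have he' : (0 : ℝ) < Real.exp (-32) := Real.exp_pos _
  set a : ℝ := Real.exp (-32) with ha
  set C6 : ℝ := 32 * Real.exp 32 + 7 / 2 * |C3| with hC6
  have hC60 : 0 < C6 := by positivity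
  set η : ℝ := a / (2 * C6) with hη
  have hη0 : 0 < η := by positivity
  refine ⟨a / 2, C6 / η ^ 3, by positivity, by positivity, fun z => ?_⟩
  have s0 := sg_nonneg z
  have s1 := sg_le z
  have h1 : 15 * nn z + nn' z ≤ -a + 32 * Real.exp 32 * sg z := by
    unfold nn'
    have h2 : 15 * nn z + 32 * Real.sin z * nn z = (15 + 32 * Real.sin z) * nn z := by ring
    rw [h2]
    have h3 : (15 + 32 * Real.sin z) * nn z ≤ (-1 + 32 * sg z) * nn z := by
      refine mul_le_mul_of_nonneg_right ?_ (nn_pos z).le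
      have := sin_le_sg z
      linarith
    have h4 : (-1 + 32 * sg z) * nn z ≤ -a + 32 * Real.exp 32 * sg z := by
      have h5 := nn_ge z
      have h6 : sg z * nn z ≤ sg z * Real.exp 32 := mul_le_mul_of_nonneg_left (nn_le z) s0
      nlinarith
    linarith
  have h2 : C3 * (|hh z| + |hh' z|) ≤ 7 / 2 * |C3| * sg z := by
    have h3 : |hh z| + |hh' z| ≤ 7 / 2 * sg z := by
      have h4 := hh'_le z
      have h5 : |hh z| ≤ 3 / 2 * sg z := by
        rw [abs_of_nonneg (hh_nonneg z)]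
        unfold hh
        nlinarith
      linarith
    have h6 : 0 ≤ |hh z| + |hh' z| := by positivity
    calc C3 * (|hh z| + |hh' z|) ≤ |C3| * (|hh z| + |hh' z|) :=
          mul_le_mul_of_nonneg_right (le_abs_self C3) h6
      _ ≤ |C3| * (7 / 2 * sg z) := mul_le_mul_of_nonneg_left h3 (abs_nonneg _)
      _ = 7 / 2 * |C3| * sg z := by ring
  have h3 : sg z ≤ η + hh z ^ 2 / η ^ 3 := by
    unfold hh
    rcases le_total (sg z) η with h4 | h4
    · have : 0 ≤ (sg z ^ 2) ^ 2 / η ^ 3 := by positivity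
      linarith
    · have h5 : sg z ≤ (sg z ^ 2) ^ 2 / η ^ 3 := by
        rw [le_div_iff₀ (by positivity)]
        have h6 : η ^ 3 ≤ sg z ^ 3 := pow_le_pow_left₀ hη0.le h4 3
        calc sg z * η ^ 3 ≤ sg z * sg z ^ 3 := mul_le_mul_of_nonneg_left h6 s0
          _ = (sg z ^ 2) ^ 2 := by ring
      linarith
  have h4 : C6 * sg z ≤ a / 2 + C6 / η ^ 3 * hh z ^ 2 := by
    have h5 : C6 * sg z ≤ C6 * (η + hh z ^ 2 / η ^ 3) := mul_le_mul_of_nonneg_left h3 hC60.le
    have h6 : C6 * η = a / 2 := by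
      rw [hη]
      field_simp
    calc C6 * sg z ≤ C6 * (η + hh z ^ 2 / η ^ 3) := h5
      _ = C6 * η + C6 / η ^ 3 * hh z ^ 2 := by ring
      _ = _ := by rw [h6]
  have h5 : 15 * nn z + nn' z + C3 * (|hh z| + |hh' z|) ≤ -a + C6 * sg z := by
    have : C6 * sg z = 32 * Real.exp 32 * sg z + 7 / 2 * |C3| * sg z := by
      rw [hC6]
      ring
    linarith
  linarith

end Pool.Agent.Helper51.PL
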